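import Mathlib
import Pool.Agent.H29R2.MG.Surface

set_option autoImplicit false

/-! The symplectic group over the integers: definitions. -/

namespace Pool.Agent.Q290.SC

open Pool.Agent.H29R2.MG

variable {g : ℕ}

/-- the lattice `ℤ^{2g}` -/
abbrev VV (g : ℕ) : Type := Fin g ⊕ Fin g → ℤ

/-- the symplectic form with `ω(e_i, f_i) = 1` -/
abbrev om (x y : VV g) : ℤ := intersectionForm x y

/-- `e_i` -/
def ve (i : Fin g) : VV g := Pi.single (Sum.inl i) 1

/-- `f_i` -/
def vf (i : Fin g) : VV g := Pi.single (Sum.inr i) 1

theorem om_add_left (x y z : VV g) : om (x + y) z = om x z + om y z := by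
  unfold om intersectionForm
  rw [← Finset.sum_add_distrib]
  exact Finset.sum_congr rfl fun i _ => by simp only [Pi.add_apply]; ring

theorem om_add_right (x y z : VV g) : om x (y + z) = om x y + om x z := by
  unfold om intersectionForm
  rw [← Finset.sum_add_distrib]
  exact Finset.sum_congr rfl fun i _ => by simp only [Pi.add_apply]; ring

theorem om_smul_left (c : ℤ) (x y : VV g) : om (c • x) y = c * om x y := by
  unfold om intersectionForm
  rw [Finset.mul_sum]
  exact Finset.sum_congr rfl fun i _ => by simp only [Pi.smul_apply, smul_eq_mul]; ring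

theorem om_smul_right (c : ℤ) (x y : VV g) : om x (c • y) = c * om x y := by
  unfold om intersectionForm
  rw [Finset.mul_sum]
  exact Finset.sum_congr rfl fun i _ => by simp only [Pi.smul_apply, smul_eq_mul]; ring

theorem om_self (x : VV g) : om x x = 0 := by
  unfold om intersectionForm
  exact Finset.sum_eq_zero fun i _ => by ring

theorem om_swap (x y : VV g) : om x y = - om y x := by
  unfold om intersectionForm
  rw [← Finset.sum_neg_distrib]
  exact Finset.sum_congr rfl fun i _ => by ring

theorem om_neg_left (x y : VV g) : om (-x) y = - om x y := by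
  have := om_smul_left (-1) x y
  simpa using this

theorem om_neg_right (x y : VV g) : om x (-y) = - om x y := by
  have := om_smul_right (-1) x y
  simpa using this

theorem om_ve (i : Fin g) (x : VV g) : om (ve i) x = x (Sum.inr i) := by
  unfold om intersectionForm ve
  rw [Finset.sum_eq_single i]
  · simp
  · intro j _ hj; simp [Pi.single_apply, hj]
  · intro h; exact absurd (Finset.mem_univ _) h

theorem om_vf (i : Fin g) (x : VV g) : om (vf i) x = - x (Sum.inl i) := by
  unfold om intersectionForm vf
  rw [Finset.sum_eq_single i]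
  · simp
  · intro j _ hj; simp [Pi.single_apply, hj]
  · intro h; exact absurd (Finset.mem_univ _) h

theorem om_ve' (i : Fin g) (x : VV g) : om x (ve i) = - x (Sum.inr i) := by
  rw [om_swap, om_ve]

theorem om_vf' (i : Fin g) (x : VV g) : om x (vf i) = x (Sum.inl i) := by
  rw [om_swap, om_vf, neg_neg]

/-- the integral symplectic group -/
def SpG (g : ℕ) : Subgroup (VV g ≃ₗ[ℤ] VV g) where
  carrier := {M | ∀ x y, om (M x) (M y) = om x y}
  one_mem' := fun _ _ => rfl
  mul_mem' := by
    intro M N hM hN x y
    show om (M (N x)) (M (N y)) = _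
    rw [hM, hN]
  inv_mem' := by
    intro M hM x y
    rw [← hM (M⁻¹ x) (M⁻¹ y)]
    show om (M (M.symm x)) (M (M.symm y)) = _
    rw [LinearEquiv.apply_symm_apply, LinearEquiv.apply_symm_apply]

/-- the action -/
def ac (M : SpG g) (x : VV g) : VV g := (M : VV g ≃ₗ[ℤ] VV g) x

theorem ac_add (M : SpG g) (x y : VV g) : ac M (x + y) = ac M x + ac M y := map_add _ _ _
theorem ac_smul (M : SpG g) (c : ℤ) (x : VV g) : ac M (c • x) = c • ac M x := map_smul _ _ _
theorem ac_neg (M : SpG g) (x : VV g) : ac M (-x) = - ac M x := map_neg _ _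
theorem ac_zero (M : SpG g) : ac M 0 = 0 := map_zero _
theorem ac_mul (M N : SpG g) (x : VV g) : ac (M * N) x = ac M (ac N x) := rfl
theorem ac_one (x : VV g) : ac (1 : SpG g) x = x := rfl
theorem ac_inv_self (M : SpG g) (x : VV g) : ac M (ac M⁻¹ x) = x :=
  LinearEquiv.apply_symm_apply _ _
theorem ac_self_inv (M : SpG g) (x : VV g) : ac M⁻¹ (ac M x) = x :=
  LinearEquiv.symm_apply_apply _ _
theorem om_ac (M : SpG g) (x y : VV g) : om (ac M x) (ac M y) = om x y := M.2 x y

theorem sp_ext {M N : SpG g} (h : ∀ x, ac M x = ac N x) : M = N :=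
  Subtype.ext (LinearEquiv.ext h)

/-- it suffices to compare two elements of the symplectic group on the basis -/
theorem sp_ext_basis {M N : SpG g} (he : ∀ i, ac M (ve i) = ac N (ve i))
    (hf : ∀ i, ac M (vf i) = ac N (vf i)) : M = N := by
  apply Subtype.ext
  apply LinearEquiv.toLinearMap_injective
  apply LinearMap.pi_ext'
  rintro (i | i)
  · ext
    exact congrFun (he i) _
  · ext
    exact congrFun (hf i) _

/-- an element of the symplectic group from a map and its inverse -/
def mkSp (F F' : VV g → VV g) (hadd : ∀ x y, F (x + y) = F x + F y)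
    (hsmul : ∀ (c : ℤ) x, F (c • x) = c • F x) (h1 : ∀ x, F' (F x) = x) (h2 : ∀ x, F (F' x) = x)
    (h : ∀ x y, om (F x) (F y) = om x y) : SpG g :=
  ⟨{ toFun := F, map_add' := hadd, map_smul' := hsmul, invFun := F', left_inv := h1,
     right_inv := h2 }, h⟩

/-- the transvection `y ↦ y + t ω(v, y) v` -/
def T (v : VV g) (t : ℤ) : SpG g :=
  mkSp (fun y => y + (t * om v y) • v) (fun y => y + (-t * om v y) • v)
    (fun x y => by rw [om_add_right, mul_add, add_smul]; abel)
    (fun c x => by rw [om_smul_right, smul_add, smul_smul]; congr 2; ring)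
    (fun x => by
      simp only [om_add_right, om_smul_right, om_self, mul_zero, add_zero]
      rw [add_assoc, ← add_smul]
      have : t * om v x + -t * om v x = 0 := by ring
      rw [this, zero_smul, add_zero])
    (fun x => by
      simp only [om_add_right, om_smul_right, om_self, mul_zero, add_zero]
      rw [add_assoc, ← add_smul]
      have : -t * om v x + t * om v x = 0 := by ring
      rw [this, zero_smul, add_zero])
    (fun x y => by
      simp only [om_add_right, om_add_left, om_smul_right, om_smul_left, om_self]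
      rw [om_swap x v]
      ring)

theorem ac_T (v : VV g) (t : ℤ) (y : VV g) : ac (T v t) y = y + (t * om v y) • v := rfl

/-- the block `e_i ↦ a e_i + b f_i`, `f_i ↦ c e_i + d f_i` -/
def L (i : Fin g) (a b c d : ℤ) (h : a * d - b * c = 1) : SpG g :=
  mkSp
    (fun y => y + y (Sum.inl i) • ((a - 1) • ve i + b • vf i) +
      y (Sum.inr i) • (c • ve i + (d - 1) • vf i))
    (fun y => y + y (Sum.inl i) • ((d - 1) • ve i + (-b) • vf i) +
      y (Sum.inr i) • ((-c) • ve i + (a - 1) • vf i))
    (fun x y => by
      simp only [Pi.add_apply, add_smul]; abel)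
    (fun c x => by
      simp only [Pi.smul_apply, smul_eq_mul, mul_smul, smul_add])
    (fun x => by
      funext j
      simp only [ve, vf, Pi.add_apply, Pi.smul_apply, smul_eq_mul, Pi.single_apply]
      by_cases h1 : j = Sum.inl i
      · subst h1
        simp
        linear_combination (x (Sum.inl i)) * h
      · by_cases h2 : j = Sum.inr i
        · subst h2
          simp
          linear_combination (x (Sum.inr i)) * h
        · simp [h1, h2])
    (fun x => by
      funext j
      simp only [ve, vf, Pi.add_apply, Pi.smul_apply, smul_eq_mul, Pi.single_apply]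
      by_cases h1 : j = Sum.inl i
      · subst h1
        simp
        linear_combination (x (Sum.inl i)) * h
      · by_cases h2 : j = Sum.inr i
        · subst h2
          simp
          linear_combination (x (Sum.inr i)) * h
        · simp [h1, h2])
    (fun x y => by
      simp only [om_add_right, om_add_left, om_smul_right, om_smul_left, om_self, om_ve, om_vf,
        om_ve', om_vf']
      simp only [ve, vf, Pi.single_apply]
      simp
      linear_combination (x (Sum.inl i) * y (Sum.inr i) - x (Sum.inr i) * y (Sum.inl i)) * h)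

theorem ac_L_e (i : Fin g) (a b c d : ℤ) (h : a * d - b * c = 1) :
    ac (L i a b c d h) (ve i) = a • ve i + b • vf i := by
  show ve i + (ve i : VV g) (Sum.inl i) • ((a - 1) • ve i + b • vf i) +
      (ve i : VV g) (Sum.inr i) • (c • ve i + (d - 1) • vf i) = _
  have h1 : (ve i : VV g) (Sum.inl i) = 1 := by simp [ve]
  have h2 : (ve i : VV g) (Sum.inr i) = 0 := by simp [ve]
  rw [h1, h2, one_smul, zero_smul, add_zero, sub_smul, one_smul]
  abel

theorem ac_L_f (i : Fin g) (a b c d : ℤ) (h : a * d - b * c = 1) :
    ac (L i a b c d h) (vf i) = c • ve i + d • vf i := by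
  show vf i + (vf i : VV g) (Sum.inl i) • ((a - 1) • ve i + b • vf i) +
      (vf i : VV g) (Sum.inr i) • (c • ve i + (d - 1) • vf i) = _
  have h1 : (vf i : VV g) (Sum.inl i) = 0 := by simp [vf]
  have h2 : (vf i : VV g) (Sum.inr i) = 1 := by simp [vf]
  rw [h1, h2, one_smul, zero_smul, add_zero, sub_smul, one_smul]
  abel

theorem ac_L_of {i : Fin g} {a b c d : ℤ} (h : a * d - b * c = 1) {y : VV g}
    (h1 : y (Sum.inl i) = 0) (h2 : y (Sum.inr i) = 0) : ac (L i a b c d h) y = y := by
  show y + y (Sum.inl i) • ((a - 1) • ve i + b • vf i) +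
      y (Sum.inr i) • (c • ve i + (d - 1) • vf i) = _
  rw [h1, h2, zero_smul, zero_smul, add_zero, add_zero]

/-- the principal congruence subgroup of level `q` -/
def Ga (g : ℕ) (q : ℤ) : Subgroup (SpG g) where
  carrier := {M | ∀ x j, q ∣ ac M x j - x j}
  one_mem' := fun x j => by rw [ac_one, sub_self]; exact dvd_zero _
  mul_mem' := by
    intro M N hM hN x j
    rw [ac_mul]
    have := dvd_add (hM (ac N x) j) (hN x j)
    rwa [sub_add_sub_cancel] at this
  inv_mem' := by
    intro M hM x j
    have := hM (ac M⁻¹ x) j
    rw [ac_inv_self] at this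
    rw [← neg_sub]
    exact (dvd_neg).2 this

/-- `v` is supported on the handles in `S` -/
def Sup (S : Finset (Fin g)) (v : VV g) : Prop :=
  ∀ i, i ∉ S → v (Sum.inl i) = 0 ∧ v (Sum.inr i) = 0

/-- the group generated by the transvections `T v t` with `v` supported on `S` and `q ∣ t` -/
def KS (q : ℤ) (S : Finset (Fin g)) : Subgroup (SpG g) :=
  Subgroup.closure {X | ∃ v t, Sup S v ∧ q ∣ t ∧ X = T v t}

/-- `M` fixes `e_j`, `f_j` for `j ∉ S` -/
def Fx (S : Finset (Fin g)) (M : SpG g) : Prop :=
  ∀ j, j ∉ S → ac M (ve j) = ve j ∧ ac M (vf j) = vf j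

end Pool.Agent.Q290.SC
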