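import Mathlib
import Pool.Agent.Q290.SC.SpDef

set_option autoImplicit false

/-! The symplectic group over the integers: further elements and basic facts. -/

namespace Pool.Agent.Q290.SC

open Pool.Agent.H29R2.MG

variable {g : ℕ}

/-- the Eichler transformation `y ↦ y + t (ω(u, y) v + ω(v, y) u)`, for `ω(u, v) = 0` -/
def E (u v : VV g) (t : ℤ) : SpG g := T (u + v) t * T u (-t) * T v (-t)

theorem ac_E {u v : VV g} (h : om u v = 0) (t : ℤ) (y : VV g) :
    ac (E u v t) y = y + t • (om u y • v + om v y • u) := by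
  have h' : om v u = 0 := by rw [om_swap, h, neg_zero]
  unfold E
  rw [ac_mul, ac_mul, ac_T, ac_T, ac_T]
  simp only [om_add_right, om_add_left, om_smul_right, om_self, h, h', mul_zero, add_zero]
  funext j
  simp only [Pi.add_apply, Pi.smul_apply, smul_eq_mul]
  ring

theorem T_mem {q : ℤ} {S : Finset (Fin g)} {v : VV g} {t : ℤ} (hv : Sup S v) (ht : q ∣ t) :
    T v t ∈ KS q S := Subgroup.subset_closure ⟨v, t, hv, ht, rfl⟩

theorem Sup.add {S : Finset (Fin g)} {u v : VV g} (hu : Sup S u) (hv : Sup S v) :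
    Sup S (u + v) := fun i hi => by
  simp only [Pi.add_apply]
  rw [(hu i hi).1, (hu i hi).2, (hv i hi).1, (hv i hi).2]
  simp

theorem Sup.smul {S : Finset (Fin g)} {v : VV g} (c : ℤ) (hv : Sup S v) :
    Sup S (c • v) := fun i hi => by
  simp only [Pi.smul_apply, smul_eq_mul]
  rw [(hv i hi).1, (hv i hi).2]
  simp

theorem Sup.neg {S : Finset (Fin g)} {v : VV g} (hv : Sup S v) : Sup S (-v) := fun i hi => by
  simp only [Pi.neg_apply]
  rw [(hv i hi).1, (hv i hi).2]
  simp

theorem Sup.mono {S S' : Finset (Fin g)} (h : S ⊆ S') {v : VV g} (hv : Sup S v) : Sup S' v :=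
  fun i hi => hv i fun h' => hi (h h')

theorem sup_ve {S : Finset (Fin g)} {i : Fin g} (h : i ∈ S) : Sup S (ve i : VV g) := fun j hj => by
  have : j ≠ i := fun h' => hj (h' ▸ h)
  simp [ve, this]

theorem sup_vf {S : Finset (Fin g)} {i : Fin g} (h : i ∈ S) : Sup S (vf i : VV g) := fun j hj => by
  have : j ≠ i := fun h' => hj (h' ▸ h)
  simp [vf, this]

theorem E_mem {q : ℤ} {S : Finset (Fin g)} {u v : VV g} {t : ℤ} (hu : Sup S u) (hv : Sup S v)
    (ht : q ∣ t) : E u v t ∈ KS q S := by
  unfold E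
  exact mul_mem (mul_mem (T_mem (hu.add hv) ht) (T_mem hu ((dvd_neg).2 ht)))
    (T_mem hv ((dvd_neg).2 ht))

theorem T_add (v : VV g) (s t : ℤ) : T v (s + t) = T v s * T v t := by
  apply sp_ext
  intro y
  rw [ac_mul, ac_T, ac_T, ac_T, om_add_right, om_smul_right, om_self, mul_zero, add_zero]
  funext j
  simp only [Pi.add_apply, Pi.smul_apply, smul_eq_mul]
  ring

theorem T_zero (v : VV g) : T v 0 = 1 := by
  apply sp_ext
  intro y
  rw [ac_T, zero_mul, zero_smul, add_zero, ac_one]

theorem T_neg (v : VV g) (t : ℤ) : T v (-t) = (T v t)⁻¹ := by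
  rw [eq_inv_iff_mul_eq_one, ← T_add, neg_add_cancel, T_zero]

theorem T_zpow (v : VV g) (t : ℤ) (n : ℤ) : (T v t) ^ n = T v (n * t) := by
  induction n with
  | zero => rw [zpow_zero, zero_mul, T_zero]
  | succ n ih => rw [zpow_add_one, ih, ← T_add]; congr 1; ring
  | pred n ih => rw [zpow_sub_one, ih, ← T_neg, ← T_add]; congr 1; ring

theorem T_conj (M : SpG g) (v : VV g) (t : ℤ) : M * T v t * M⁻¹ = T (ac M v) t := by
  apply sp_ext
  intro y
  rw [ac_mul, ac_mul, ac_T, ac_T, ac_add, ac_smul, ac_inv_self]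
  congr 3
  rw [← om_ac M v (ac M⁻¹ y), ac_inv_self]

theorem T_smul (v : VV g) (c t : ℤ) : T (c • v) t = T v (c ^ 2 * t) := by
  apply sp_ext
  intro y
  rw [ac_T, ac_T, om_smul_left]
  funext j
  simp only [Pi.add_apply, Pi.smul_apply, smul_eq_mul]
  ring

/-- the coordinates of a vector -/
theorem co_inl (x : VV g) (i : Fin g) : x (Sum.inl i) = om x (vf i) := (om_vf' i x).symm
theorem co_inr (x : VV g) (i : Fin g) : x (Sum.inr i) = om (ve i) x := (om_ve i x).symm

theorem co_ext {x y : VV g} (h : ∀ i, x (Sum.inl i) = y (Sum.inl i) ∧ x (Sum.inr i) = y (Sum.inr i)) :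
    x = y := by
  funext j
  rcases j with i | i
  · exact (h i).1
  · exact (h i).2

/-- elements fixing `e_j`, `f_j` for `j ∉ S` preserve the vectors supported on `S` -/
theorem Sup.act {S : Finset (Fin g)} {M : SpG g} (hM : Fx S M) {v : VV g} (hv : Sup S v) :
    Sup S (ac M v) := fun j hj => by
  rw [co_inl (ac M v) j, co_inr (ac M v) j]
  constructor
  · rw [← (hM j hj).2, om_ac, ← co_inl]; exact (hv j hj).1
  · rw [← (hM j hj).1, om_ac, ← co_inr]; exact (hv j hj).2

theorem Fx.mul {S : Finset (Fin g)} {M N : SpG g} (hM : Fx S M) (hN : Fx S N) : Fx S (M * N) :=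
  fun j hj => by
    rw [ac_mul, ac_mul, (hN j hj).1, (hN j hj).2, (hM j hj).1, (hM j hj).2]
    exact ⟨rfl, rfl⟩

theorem Fx.inv {S : Finset (Fin g)} {M : SpG g} (hM : Fx S M) : Fx S M⁻¹ := fun j hj => by
  constructor
  · rw [← (hM j hj).1, ac_self_inv, (hM j hj).1]
  · rw [← (hM j hj).2, ac_self_inv, (hM j hj).2]

theorem Fx.mono {S S' : Finset (Fin g)} (h : S ⊆ S') {M : SpG g} (hM : Fx S M) : Fx S' M :=
  fun j hj => hM j fun h' => hj (h h')

theorem T_Fx {S : Finset (Fin g)} {v : VV g} (hv : Sup S v) (t : ℤ) : Fx S (T v t) := fun j hj => by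
  rw [ac_T, ac_T, om_ve', om_vf', (hv j hj).1, (hv j hj).2]
  simp

theorem KS_Fx {q : ℤ} {S : Finset (Fin g)} {X : SpG g} (hX : X ∈ KS q S) : Fx S X := by
  induction hX using Subgroup.closure_induction with
  | mem x hx => obtain ⟨v, t, hv, -, rfl⟩ := hx; exact T_Fx hv t
  | one => intro j _; exact ⟨rfl, rfl⟩
  | mul x y _ _ hx hy => exact hx.mul hy
  | inv x _ hx => exact hx.inv

theorem KS_Ga {q : ℤ} {S : Finset (Fin g)} : KS q S ≤ Ga g q := by
  rw [KS, Subgroup.closure_le]
  rintro _ ⟨v, t, -, ht, rfl⟩ x j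
  rw [ac_T]
  simp only [Pi.add_apply, Pi.smul_apply, smul_eq_mul, add_sub_cancel_left]
  exact Dvd.dvd.mul_right (Dvd.dvd.mul_right ht _) _

theorem KS_conj {q : ℤ} {S : Finset (Fin g)} {M X : SpG g} (hM : Fx S M) (hX : X ∈ KS q S) :
    M * X * M⁻¹ ∈ KS q S := by
  induction hX using Subgroup.closure_induction with
  | mem x hx => obtain ⟨v, t, hv, ht, rfl⟩ := hx; rw [T_conj]; exact T_mem (hv.act hM) ht
  | one => rw [mul_one, mul_inv_cancel]; exact one_mem _
  | mul x y _ _ hx hy =>
    have e : M * (x * y) * M⁻¹ = (M * x * M⁻¹) * (M * y * M⁻¹) := by group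
    rw [e]; exact mul_mem hx hy
  | inv x _ hx =>
    have e : M * x⁻¹ * M⁻¹ = (M * x * M⁻¹)⁻¹ := by group
    rw [e]; exact inv_mem hx

theorem KS_mono {q : ℤ} {S S' : Finset (Fin g)} (h : S ⊆ S') : KS q S ≤ KS q S' := by
  rw [KS, Subgroup.closure_le]
  rintro _ ⟨v, t, hv, ht, rfl⟩
  exact T_mem (hv.mono h) ht

/-- the Levi element `e_i ↦ a e_i + u e_j`, `e_j ↦ w e_i + d e_j`, `f_i ↦ d f_i - w f_j`,
`f_j ↦ -u f_i + a f_j` -/
def Lv (i j : Fin g) (hij : i ≠ j) (a u w d : ℤ) (h : a * d - u * w = 1) : SpG g :=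
  mkSp
    (fun y => y + y (Sum.inl i) • ((a - 1) • ve i + u • ve j) +
      y (Sum.inl j) • (w • ve i + (d - 1) • ve j) +
      y (Sum.inr i) • ((d - 1) • vf i + (-w) • vf j) +
      y (Sum.inr j) • ((-u) • vf i + (a - 1) • vf j))
    (fun y => y + y (Sum.inl i) • ((d - 1) • ve i + (-u) • ve j) +
      y (Sum.inl j) • ((-w) • ve i + (a - 1) • ve j) +
      y (Sum.inr i) • ((a - 1) • vf i + w • vf j) +
      y (Sum.inr j) • (u • vf i + (d - 1) • vf j))
    (fun x y => by simp only [Pi.add_apply, add_smul]; abel)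
    (fun c x => by simp only [Pi.smul_apply, smul_eq_mul, mul_smul, smul_add])
    (fun x => by
      have hji : j ≠ i := hij.symm
      refine co_ext fun k => ?_
      simp only [ve, vf, Pi.add_apply, Pi.smul_apply, smul_eq_mul, Pi.single_apply,
        Sum.inl.injEq, Sum.inr.injEq, reduceCtorEq, if_false, if_true, hij, hji]
      by_cases h1 : k = i
      · subst h1
        simp [hij]
        constructor
        · linear_combination (x (Sum.inl k)) * h
        · linear_combination (x (Sum.inr k)) * h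
      · by_cases h2 : k = j
        · subst h2
          simp [hji]
          constructor
          · linear_combination (x (Sum.inl k)) * h
          · linear_combination (x (Sum.inr k)) * h
        · simp [h1, h2])
    (fun x => by
      have hji : j ≠ i := hij.symm
      refine co_ext fun k => ?_
      simp only [ve, vf, Pi.add_apply, Pi.smul_apply, smul_eq_mul, Pi.single_apply,
        Sum.inl.injEq, Sum.inr.injEq, reduceCtorEq, if_false, if_true, hij, hji]
      by_cases h1 : k = i
      · subst h1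
        simp [hij]
        constructor
        · linear_combination (x (Sum.inl k)) * h
        · linear_combination (x (Sum.inr k)) * h
      · by_cases h2 : k = j
        · subst h2
          simp [hji]
          constructor
          · linear_combination (x (Sum.inl k)) * h
          · linear_combination (x (Sum.inr k)) * h
        · simp [h1, h2])
    (fun x y => by
      have hji : j ≠ i := hij.symm
      simp only [om_add_right, om_add_left, om_smul_right, om_smul_left, om_ve, om_vf,
        om_ve', om_vf']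
      simp only [ve, vf, Pi.add_apply, Pi.smul_apply, smul_eq_mul, Pi.single_apply,
        Sum.inl.injEq, Sum.inr.injEq, reduceCtorEq, if_false, if_true, hij, hji]
      linear_combination (x (Sum.inl i) * y (Sum.inr i) - x (Sum.inr i) * y (Sum.inl i) +
        x (Sum.inl j) * y (Sum.inr j) - x (Sum.inr j) * y (Sum.inl j)) * h)

end Pool.Agent.Q290.SC
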