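import Mathlib
import Pool.Agent.Q290.SC.SpDef2

set_option autoImplicit false

/-!
# Project SC (helper290): finite-index subgroups of the mapping class group which contain a term of
the Johnson filtration are congruence subgroups

Statements of the lemma jobs, with proofs in the docstrings.  Notation: `V = VV g = ℤ^{2g}`,
`ω = om`, `e_i = ve i`, `f_i = vf i`, `ω(e_i, f_i) = 1`; `x (Sum.inl i)` is the `e_i`-coordinate of
`x` (it is `ω(x, f_i)`, `om_vf'`; and `ω(f_i, x) = - x (Sum.inl i)`, `om_vf`), `x (Sum.inr i)` is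
the `f_i`-coordinate (it is `ω(e_i, x)`, `om_ve`).  `SpG g` is the symplectic group, `ac M x` the
action, `T v t : y ↦ y + t ω(v,y) v` (`ac_T`), `E u v t : y ↦ y + t (ω(u,y) v + ω(v,y) u)` if
`ω(u,v) = 0` (`ac_E`), `KS q S` the group generated by the `T v t` with `q ∣ t` and `v` supported on
`S` (`T_mem`, `E_mem`, `KS_Ga`, `KS_Fx`, `KS_conj`, `KS_mono`), `Ga g q` the level `q` subgroup,
`Sup S v`: `v` is supported on the handles in `S`, `Fx S M`: `M` fixes `e_j, f_j` for `j ∉ S`,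
`L i a b c d h : e_i ↦ a e_i + b f_i, f_i ↦ c e_i + d f_i` (`ac_L_e`, `ac_L_f`, `ac_L_of`),
`Lv i j hij a u w d h` the Levi element.  All basic facts are in SpDef.lean and SpDef2.lean.
-/

namespace Pool.Agent.Q290.SC

open Pool.Agent.H29R2.MG

/-- Let `t` be the product of the primes which divide `a` and do not divide `y` (take
`(a.natAbs.primeFactors.filter (fun p => ¬ (p : ℤ) ∣ y)).prod id`).  Let `p` be a prime dividing
`a`. If `p ∣ y`, then `p ∤ z` (else `p ∣ 1`) and `p ∤ t` (a product of primes different from `p`),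
so `p ∤ y + t z`.  If `p ∤ y`, then `p ∣ t` and `p ∤ y + t z`. -/
def S_NT : Prop := ∀ a y z : ℤ, a ≠ 0 → (∃ α β γ : ℤ, α * a + β * y + γ * z = 1) →
  ∃ t : ℤ, IsCoprime a (y + t * z)

/-- `w` primitive, `w ≡ e_k` modulo `q`, supported on `S`. Write `a, b` for the `e_k`- and
`f_k`-coordinates of `w`.  There is `X ∈ KS q S` such that the `e_k`-coordinate of `X w` is coprime
to the content of the rest of `X w`, in the form: `α a' + ω(z, X w) = 1` for some `α` and some `z`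
supported on `S \ {k}`; and `X w` is again supported on `S` and `≡ e_k` modulo `q` (automatic from
`KS_Fx`, `Sup.act`, `KS_Ga`).
Proof. First one may assume that some coordinate of `w` in a handle of `S \ {k}` is not zero: else
`w = a e_k + b f_k`; as `q ∣ a - 1` and `q ≥ 2`, `a ≠ 0`; replace `w` by
`E (vf k) (ve i) q w = w + q (ω(f_k, w) e_i + ω(e_i, w) f_k) = w - q a e_i` (here `ω(e_i,w) = 0`).
Let `I = {ω(x, w) : x supported on S \ {k}}`, a subgroup of `ℤ`, so `I = ℤ d`, and `d ≠ 0`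
(take `x = e_i'` or `f_i'` for the nonzero coordinate).  `w` is primitive: `ω(w, z) = 1`; split `z`
in its part `β e_k + γ f_k` on the handle `k`, its part `z'` on `S \ {k}` and the rest (orthogonal
to `w`); so `1 = γ a - β b + δ d` for some `δ`.  Since `q` is coprime to `a` (`q ∣ a - 1`), also
`1 = γ' a + β' (q b) + δ' d`: indeed `1 = (a-multiple) + (β b) (1)` and
`1 ≡ 1 - (1 - a) = a`-multiples: explicitly, with `a = 1 + q m`, `β b = β b (a - q m)
= (β b) a - (β m) (q b)`.  `S_NT` for `(d; a, q b)` gives `t` with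
`IsCoprime d (a + t q b)`. Take `X = T (ve k) (q t)`: `X w = w + q t ω(e_k, w) e_k = w + q t b e_k`
has `e_k`-coordinate `a + q t b`, and for `x` supported on `S \ {k}`, `ω(x, X w) = ω(x, w)`.  As
`d = ω(x₀, w)`, `1 = α (a + q t b) + β d` gives the claim with `z = β x₀`. -/
def S_RZ : Prop := ∀ (g : ℕ) (q : ℤ) (S : Finset (Fin g)) (k i : Fin g), 2 ≤ q → k ∈ S →
  i ∈ S → i ≠ k → ∀ w : VV g, Sup S w → (∀ j, q ∣ w j - ve k j) → (∃ z, om w z = 1) →
  ∃ X ∈ KS q S, ∃ (α : ℤ) (z : VV g), Sup (S.erase k) z ∧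
    α * ac X w (Sum.inl k) + om z (ac X w) = 1

/-- Let `a, b` be the coordinates of `w` in the handle `k`, `c, d` those in the handle `i`.
There is `X ∈ KS q S` such that the `e_k`-coordinate of `X w` is coprime to its `f_i`-coordinate.
Proof. `a ≠ 0` since `q ∣ a - 1`, `q ≥ 2`.  Write the given `z` as `β e_i + γ f_i + z'` with `z'`
supported on `S \ {k, i}`: `1 = α a + β d - γ c + ω(z', w)`. Put `G = ω(z', w) - γ c`. So
`1 = α a + β d + G`, and, as `a = 1 + q m`, `G = G a - m (q G)`: `1 = (α + G) a + β d - m (q G)`.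
By `S_NT` there is `t` with `a` coprime to `d + t q G`. First apply `X₁ = E (vf i) (t • z') q`
(`ω(f_i, z') = 0`): `y ↦ y + q (ω(f_i, y) t z' + t ω(z', y) f_i)`. It maps `w` to
`w - q c t z' + q t ω(z', w) f_i`: the coordinates `a, b` and `c` are unchanged, `d` becomes
`d + q t ω(z', w)`.  Then apply `X₂ = T (vf i) (q t γ)`: `y ↦ y + q t γ ω(f_i, y) f_i`, which adds
`- q t γ c` to the `f_i`-coordinate.  Result: `e_k`-coordinate `a`, `f_i`-coordinate
`d + q t (ω(z', w) - γ c) = d + t q G`. -/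
def S_RA : Prop := ∀ (g : ℕ) (q : ℤ) (S : Finset (Fin g)) (k i : Fin g), 2 ≤ q → k ∈ S →
  i ∈ S → i ≠ k → ∀ w : VV g, Sup S w → (∀ j, q ∣ w j - ve k j) →
  (∃ (α : ℤ) (z : VV g), Sup (S.erase k) z ∧ α * w (Sum.inl k) + om z w = 1) →
  ∃ X ∈ KS q S, IsCoprime (ac X w (Sum.inl k)) (ac X w (Sum.inr i))

/-- With `a, b, c, d` as in `S_RA` and `a, d` coprime. There is `X ∈ KS q S` such that the
`e_i`-coordinate of `X w` is `1 - ` its `e_k`-coordinate.  Proof. `1 - a - c = q m` since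
`a ≡ 1`, `c ≡ 0` modulo `q`.  Choose `s, r` with `- s a + r d = m`. Apply
`X₁ = E (ve i) (vf k) (q s)`: `y ↦ y + q s (ω(e_i, y) f_k + ω(f_k, y) e_i)` (`ω(e_i, f_k) = 0`); it
maps `w` to `w + q s d f_k - q s a e_i`; then `X₂ = T (ve i) (q r)`: `y ↦ y + q r ω(e_i, y) e_i`,
which adds `q r d` to the `e_i`-coordinate (the `f_i`-coordinate is still `d`).  The new
`e_i`-coordinate is `c - q s a + q r d = c + q m = 1 - a`, the `e_k`-coordinate is still `a`. -/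
def S_RB : Prop := ∀ (g : ℕ) (q : ℤ) (S : Finset (Fin g)) (k i : Fin g), k ∈ S →
  i ∈ S → i ≠ k → ∀ w : VV g, Sup S w → (∀ j, q ∣ w j - ve k j) →
  IsCoprime (w (Sum.inl k)) (w (Sum.inr i)) →
  ∃ X ∈ KS q S, ac X w (Sum.inl i) = 1 - ac X w (Sum.inl k)

/-- Let the `e_i`-coordinate of `w` be `1 - a`, `a` the `e_k`-coordinate. There is `X ∈ KS q S` with
`X w = e_k`.  Proof. Let `P = E (ve k) (vf i) (-1)`: `y ↦ y - (ω(e_k, y) f_i + ω(f_i, y) e_k)`
(`ω(e_k, f_i) = 0`).  `P` fixes `e_k`, and `Fx S P`, `P⁻¹` too.  `w₁ = P w` has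
`e_k`-coordinate `a + (1 - a) = 1` (as `ω(f_i, w) = -(1 - a)`), and all its other coordinates are
divisible by `q`: the only changed one is the `f_i`-coordinate `d - b`, where `q ∣ d, b`.
Let `b` be the `f_k`-coordinate of `w₁` and write `w₁ = e_k + b f_k + q x` with `x` supported on
`S \ {k}`.  Let `X₁ = E (vf k) x q`: `y ↦ y + q (ω(f_k, y) x + ω(x, y) f_k)` (`ω(f_k, x) = 0`);
`ω(f_k, w₁) = -1` and `ω(x, w₁) = 0` (as `ω(x, x) = 0` and `x` is orthogonal to `e_k, f_k`), so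
`X₁ w₁ = e_k + b f_k`.  Let `X₂ = T (vf k) b` (`q ∣ b`): `X₂ (e_k + b f_k) = e_k + b f_k - b f_k`.
So `X₂ X₁ P w = e_k = P e_k`, and `X = P⁻¹ X₂ X₁ P ∈ KS q S` by `KS_conj` maps `w` to
`P⁻¹ e_k = e_k`. -/
def S_RC : Prop := ∀ (g : ℕ) (q : ℤ) (S : Finset (Fin g)) (k i : Fin g), k ∈ S →
  i ∈ S → i ≠ k → ∀ w : VV g, Sup S w → (∀ j, q ∣ w j - ve k j) →
  w (Sum.inl i) = 1 - w (Sum.inl k) → ∃ X ∈ KS q S, ac X w = ve k

/-- Let `M` be of level `q`, supported on `S`, and `M e_k = e_k`, `k ∈ S`.  There is `X ∈ KS q S`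
such that `X M` fixes `e_k` and `f_k`, and `X` maps every `y` with `ω(e_k, y) = 0` to
`y + c e_k` for some `c`.  Proof. Let `u = M f_k`. `ω(e_k, u) = ω(M e_k, M f_k) = 1`: the
`f_k`-coordinate of `u` is `1`.  `u` is supported on `S` (`Sup.act`). `u ≡ f_k` modulo `q`. Write
`u = f_k + α e_k + q x` with `x` supported on `S \ {k}` and `q ∣ α`. `X₁ = E (ve k) x (-q)`:
`y ↦ y - q (ω(e_k, y) x + ω(x, y) e_k)` fixes `e_k` and maps `u` to `f_k + α e_k`
(`ω(e_k, u) = 1`, `ω(x, u) = 0`).  `X₂ = T (ve k) (-α)`: `y ↦ y - α ω(e_k, y) e_k` fixes `e_k` and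
maps `f_k + α e_k` to `f_k`. `X = X₂ X₁`.  If `ω(e_k, y) = 0`, then `X₁ y = y - q ω(x, y) e_k` and
`X₂` fixes it. -/
def S_FIXF : Prop := ∀ (g : ℕ) (q : ℤ) (S : Finset (Fin g)) (k : Fin g), k ∈ S →
  ∀ M ∈ Ga g q, Fx S M → ac M (ve k) = ve k →
  ∃ X ∈ KS q S, ac (X * M) (ve k) = ve k ∧ ac (X * M) (vf k) = vf k ∧
    ∀ y, om (ve k) y = 0 → ∃ c : ℤ, ac X y = y + c • ve k

/-- For all `S ∋ i` and all `M` of level `q` with `Fx S M` there is `X ∈ KS q S` with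
`Fx {i} (X * M)`.  Proof. Induction on the cardinality of `S`.  If `S = {i}`, take `X = 1`.
Otherwise take `k ∈ S`, `k ≠ i`.  `w = M e_k` is supported on `S`, `≡ e_k` modulo `q`, and
`ω(w, M f_k) = 1`.  By `S_RZ`, `S_RA`, `S_RB`, `S_RC` (applied one after the other; the hypotheses
`Sup S`, `≡ e_k` are kept by elements of `KS q S` because of `KS_Fx`, `Sup.act`, `KS_Ga`) there is
`X₁ ∈ KS q S` with `X₁ M e_k = e_k`; by `S_FIXF` there is `X₂ ∈ KS q S` such that `X₂ X₁ M` fixes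
`e_k, f_k`; so `Fx (S.erase k) (X₂ X₁ M)`, and the induction hypothesis applies. -/
def S_IND : Prop :=
  ∀ (g : ℕ) (q : ℤ), 2 ≤ q → ∀ (i : Fin g) (S : Finset (Fin g)), i ∈ S →
  ∀ M ∈ Ga g q, Fx S M → ∃ X ∈ KS q S, Fx {i} (X * M)

/-- An element `M` fixing `e_j, f_j` for all `j ≠ i` is a block.  Proof: `M e_i` is orthogonal to
`M e_j = e_j`, `M f_j = f_j` for `j ≠ i`, so `M e_i = a e_i + b f_i`, and similarly
`M f_i = c e_i + d f_i`; `ω(M e_i, M f_i) = 1` gives `a d - b c = 1`; conclude by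
`sp_ext_basis`.  The divisibilities are those of `Ga` applied to `e_i` and `f_i`. -/
def S_BLK : Prop := ∀ (g : ℕ) (i : Fin g) (M : SpG g), Fx {i} M →
  ∃ (a b c d : ℤ) (h : a * d - b * c = 1), M = L i a b c d h ∧
    ∀ q : ℤ, M ∈ Ga g q → q ∣ a - 1 ∧ q ∣ b ∧ q ∣ c ∧ q ∣ d - 1

/-- Let `f : SpG g →* Q` be a homomorphism which is trivial on `T v t` for `q ∣ t` (hence on
`KS q S`).  If `M ∈ Ga g q` and `Y` fixes `e_k, f_k` for some `k`, then `f (Y M Y⁻¹) = f M`.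
Proof.  By `S_IND` (with `i = k`, `S = univ`) there is `X ∈ KS q univ` with `Fx {k} (X M)`, and by
`S_BLK`, `X M = L k a b c d` is a block; it commutes with `Y` (check on the basis, `sp_ext_basis`:
on `e_k, f_k` clear by `ac_L_e`, `ac_L_f`; the `e_j, f_j` with `j ≠ k` are fixed by the block, and
`Y` maps them to vectors orthogonal to `Y e_k = e_k`, `Y f_k = f_k`, which are fixed by the
block by `ac_L_of`).  So `f (Y M Y⁻¹) = f (Y X⁻¹ Y⁻¹) f (Y (X M) Y⁻¹) = f (X M) = f M`, as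
`Y X⁻¹ Y⁻¹ ∈ KS q univ` by `KS_conj`. -/
def S_CEN : Prop := ∀ (g : ℕ) (q : ℤ), 2 ≤ q → ∀ (Q : Type) [Group Q] (f : SpG g →* Q),
    (∀ (v : VV g) (t : ℤ), q ∣ t → f (T v t) = 1) →
    ∀ M ∈ Ga g q, ∀ Y : SpG g, (∃ k, ac Y (ve k) = ve k ∧ ac Y (vf k) = vf k) →
      f (Y * M * Y⁻¹) = f M

/-- The symbol.  Let `f : SpG g →* Q` be a homomorphism which is trivial on `T v t` for `q ∣ t`,
`g ≥ 3`.
Define `s a b = f (L i₀ a b c d)` for chosen `c, d` with `a d - b c = 1`, `q ∣ c`, `q ∣ d - 1`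
if `q ∣ a - 1`, `q ∣ b`, `IsCoprime a b` (such `c, d` exist: from `a d₀ - b c₀ = 1` take
`c = c₀ + r a`, `d = d₀ + r b` with `r = -c₀`; then `c = c₀ (1 - a)`, and
`d - 1 = (a d₀ - 1) + (1 - a) d₀ + r b` is divisible by `q`), and `s a b = 1` otherwise.
It does not depend on the choice: for two choices, `(L i a b c d)⁻¹ * L i a b c' d'` fixes `e_i`
and maps `f_i` to `f_i + r e_i`, i.e. it is `T (ve i) r`, and `q ∣ r` (`r = c' d - c d'` up to
sign, or since it is in `Ga g q`).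
It does not depend on the handle: for `i ≠ j` let `Y = Lv i j hij 0 1 (-1) 0 _`, i.e.
`e_i ↦ e_j`, `e_j ↦ -e_i`, `f_i ↦ f_j`, `f_j ↦ -f_i`; `Y (L i a b c d) Y⁻¹ = L j a b c d`, and `Y`
fixes `e_k, f_k` for a third `k` (`g ≥ 3`), so `S_CEN` applies.
Second property, `s (a + t b) b = s a b`: `Y = T (ve i) t` maps `f_i` to `f_i + t e_i`, so
`Y (L i a b c d) Y⁻¹` maps `e_i` to `(a + t b) e_i + b f_i`; it is a block in the handle `i`:
`Y (L i a b c d) Y⁻¹ = L i (a + t b) b (c + t d - t (a + t b)) (d - t b)`; its entries are not of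
level `q` in the third place unless corrected: `q ∣ c + t (d - a) - t² b` holds since
`q ∣ c, d - a, b`.  Apply `S_CEN` (`Y` fixes `e_k, f_k` for `k ≠ i`).
Third property, `s a (b + t a) = s a b` for `q ∣ t`: `T (vf i) (-t) * L i a b c d =
L i a (b + t a) c (d + t c)` (`T (vf i) (-t) : e_i ↦ e_i + t f_i`). -/
def S_SYM : Prop :=
  ∀ (g : ℕ) (q : ℤ), 3 ≤ g → 2 ≤ q → ∀ (Q : Type) [Group Q] (f : SpG g →* Q),
    (∀ (v : VV g) (t : ℤ), q ∣ t → f (T v t) = 1) →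
    ∃ s : ℤ → ℤ → Q,
      (∀ (i : Fin g) (a b c d : ℤ) (h : a * d - b * c = 1), q ∣ a - 1 → q ∣ b → q ∣ c →
        q ∣ d - 1 → f (L i a b c d h) = s a b) ∧
      (∀ a b t : ℤ, q ∣ a - 1 → q ∣ b → IsCoprime a b → s (a + t * b) b = s a b) ∧
      (∀ a b t : ℤ, q ∣ a - 1 → q ∣ b → IsCoprime a b → q ∣ t → s a (b + t * a) = s a b)

/-- The congruence subgroup property of the symplectic group of rank `g ≥ 3`.  Proof.  Let
`n = Nat.card Q`, `q = 4 n`; `x ^ n = 1` for all `x`, so `f (T v t) = 1` for `n ∣ t`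
(`T_zpow`), in particular for `q ∣ t`.  Let `s` be as in `S_SYM`.  Hypothesis (3) of `S_NUM`:
given `a, w`, choose `u, d'` of level `q` with `a d' - u w = 1` (as `c, d` in `S_SYM`), put
`c = f (Lv i j hij a u w d')` with two handles `i ≠ j`; `S_KEY` and the first property of `s` give
`s a b = c * s a (b * w ^ 2)`.  `s 1 0 = f (L i 1 0 0 1) = f 1 = 1`.  So `s a b = 1` by `S_NUM`.
For `M ∈ Ga g q`, `S_IND` (`S = univ`, any `i`) gives `X ∈ KS q univ` with `Fx {i} (X M)`;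
`f X = 1` (closure induction); `X M ∈ Ga g q` (`KS_Ga`) is a block of level `q` by `S_BLK`, so
`f M = f (X M) = s a b = 1`. -/
def S_CSP : Prop := ∀ (g : ℕ), 3 ≤ g → ∀ (Q : Type) [Group Q] [Finite Q] (f : SpG g →* Q),
    ∃ q : ℤ, 2 ≤ q ∧ ∀ M ∈ Ga g q, f M = 1

/-- The key identity.  Let `i ≠ j` be handles, `a d - b c = 1`, `a d' - u w = 1`, all of level `q`
(`q ∣ a - 1, b, c, d - 1, u, w, d' - 1`).  Let `X = L i a b c d`, `Y = Lv i j a u w d'`:
`e_i ↦ a e_i + u e_j`, `e_j ↦ w e_i + d' e_j`, `f_i ↦ d' f_i - w f_j`, `f_j ↦ -u f_i + a f_j`.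
Then `f X = f Y * f (L j a (b w²) c'' d'')` for some `c'', d''` of level `q`.
Proof. Let `R = E (ve j) (vf i) (-u)`: `e_i ↦ e_i + u e_j`, `f_j ↦ f_j - u f_i`, the other
`e, f` are fixed.  `Y⁻¹`: `e_i ↦ d' e_i - u e_j`, `e_j ↦ -w e_i + a e_j`, `f_i ↦ a f_i + w f_j`,
`f_j ↦ u f_i + d' f_j`.  `Z = Y⁻¹ X R`:
`Z e_i = Y⁻¹ X (e_i + u e_j) = Y⁻¹ (a e_i + b f_i + u e_j)
 = a d' e_i - a u e_j + b a f_i + b w f_j - u w e_i + u a e_j = e_i + a b f_i + b w f_j`,
`Z e_j = Y⁻¹ e_j = - w e_i + a e_j`.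
Let `U = E (vf i) (vf j) (b w) * T (vf i) (a b)`: `T (vf i) s : e_i ↦ e_i - s f_i`, and
`E (vf i) (vf j) r : e_i ↦ e_i - r f_j, e_j ↦ e_j - r f_i`; so `U e_i = e_i - a b f_i - b w f_j`,
`U e_j = e_j - b w f_i`, `U f = f`. Hence
`U Z e_i = e_i`, `U Z e_j = - w e_i + w a b f_i + w b w f_j + a e_j - a b w f_i
 = - w e_i + a e_j + b w² f_j`.
`N = U Z` is in `Ga g q` (all factors are: `X, Y` by their coordinates, `R, U ∈ KS q univ`) and
fixes `e_l, f_l` for `l ≠ i, j`.  By `S_FIXF` (`k = i`, `S = {i, j}`) there is `X' ∈ KS q {i, j}`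
such that `N' = X' N` fixes `e_i, f_i` (so `Fx {j} N'`), and `X'` maps `U Z e_j` (which is
orthogonal to `e_i`) to itself plus a multiple of `e_i`; so the `e_j`-, `f_j`-coordinates of
`N' e_j` are `a` and `b w²`.  By `S_BLK`, `N' = L j a (b w²) c'' d''` with `q ∣ c'', d'' - 1`
(compare the coordinates of `N' e_j`).
`f` is trivial on `R, U, X'` (elements of `KS q univ`), so `f N' = f (Y⁻¹ X)`. -/
def S_KEY : Prop :=
  ∀ (g : ℕ) (q : ℤ) (Q : Type) [Group Q] (f : SpG g →* Q),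
    (∀ (v : VV g) (t : ℤ), q ∣ t → f (T v t) = 1) →
    ∀ (i j : Fin g) (hij : i ≠ j) (a b c d u w d' : ℤ) (h : a * d - b * c = 1)
      (h' : a * d' - u * w = 1), q ∣ a - 1 → q ∣ b → q ∣ c → q ∣ d - 1 → q ∣ u → q ∣ w →
      q ∣ d' - 1 →
      ∃ (c₂ d₂ : ℤ) (h₂ : a * d₂ - (b * w ^ 2) * c₂ = 1), q ∣ c₂ ∧ q ∣ d₂ - 1 ∧
        f (L i a b c d h) = f (Lv i j hij a u w d' h') * f (L j a (b * w ^ 2) c₂ d₂ h₂)

/-- The number theory.  `q = 4 n`, all elements of `Q` have exponent `n ≥ 1`.  Hypotheses: (1), (2)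
are (3), (4) of `S_SYM`; (3): for `a ≡ 1`, `w ≡ 0` modulo `q`, coprime, there is `c ∈ Q` with
`s a b = c * s a (b w²)` for all `b ≡ 0` modulo `q` coprime to `a`; and `s 1 0 = 1`.
Then `s a b = 1` for all `a ≡ 1`, `b ≡ 0` modulo `q`, coprime.
Proof. (i) `s a (1 - a) = 1` and `s a (a - 1) = 1` (`q ∣ a - 1`; `a` is coprime to `a - 1`): by (1),
`s a (1 - a) = s (a + (1 - a)) (1 - a) = s 1 (1 - a)`, and by (2) with `a = 1`, `t = a - 1`:
`s 1 (1 - a) = s 1 0 = 1`; similarly `s a (a - 1) = s (a - (a - 1)) (a - 1) = s 1 (a - 1) = 1`.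
(ii) If `b = 0`, then `a = ± 1` and `q ∣ a - 1`, `q ≥ 4`, so `a = 1`.  Let `b ≠ 0`. By Dirichlet's
theorem there is a prime `r > 2` with `r ≡ - a` modulo `|b|` (Mathlib:
`Nat.infinite_setOf_prime_and_eq_mod` or `Nat.forall_exists_prime_gt_and_eq_mod`, for the unit
`-a` of `ZMod |b|`). By (1), `s a b = s (-r) b`.  So let `a = - r`, `r` an odd prime; `q ∣ a - 1`
says `q ∣ r + 1`.  Put `m = (r - 1) / 2`; `r = 4 n k - 1`, `m = 2 n k - 1` is odd and coprime
to `n`.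
(iii) Let `w ≡ 0` modulo `q`, coprime to `r`. Let `c` be as in (3). With `b = 1 - a`:
`1 = s a (1 - a) = c * s a ((1 - a) w²) = c * s a (w²)` by (2) (`(1 - a) w² = w² - w² a`,
`q ∣ w²`).  So `c = (s a (w²))⁻¹` and `s a (b w²) = s a (w²) * s a b` for all admissible `b`.
Put `h(w) = s a (w²)`: `h(w w') = h(w) h(w')`, so `h(w ^ l) = h(w) ^ l` for `l ≥ 1`.
`h(w)^m = h(w^m) = s a (w^(2m)) = s a (w^(r-1))`, and `w^(r-1) ≡ 1 ≡ 1 - a` modulo `a`, both
divisible by `q`, and `q, a` are coprime, so `w^(r-1) = (1 - a) + t a` with `q ∣ t`, and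
`h(w)^m = s a (1 - a) = 1` by (2). Also `h(w)^n = 1`. Since `m, n` are coprime, `h(w) = 1`. So
`s a (b w²) = s a b` (iv).
(v) `- 1` is not a square modulo `r` (`r ≡ 3` modulo 4, as `4 ∣ q ∣ r + 1`), so `b` or `-b` is a
nonzero square modulo `r` (Mathlib: `ZMod.exists_sq_eq_neg_one_iff`, `legendreSym`,
`FiniteField`; e.g. by `ZMod.euler_criterion` for `b` and `-b`, as `(-1)^((r-1)/2) = -1`), so there
is `x` with `b x² ≡ ± 1` modulo `r`; choose `w ≡ x` modulo `r`, `w ≡ 0` modulo `q` (coprime).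
Then `s a b = s a (b w²)` and `b w² ≡ ± (1 - a)` modulo `a`, both divisible by `q`, so by (2)
`s a (b w²) = s a (± (1 - a)) = 1` by (i). -/
def S_NUM : Prop := ∀ (Q : Type) [Group Q] (n : ℕ), 1 ≤ n → (∀ x : Q, x ^ n = 1) →
  ∀ s : ℤ → ℤ → Q,
    (∀ a b t : ℤ, 4 * (n : ℤ) ∣ a - 1 → 4 * (n : ℤ) ∣ b → IsCoprime a b →
      s (a + t * b) b = s a b) →
    (∀ a b t : ℤ, 4 * (n : ℤ) ∣ a - 1 → 4 * (n : ℤ) ∣ b → IsCoprime a b → 4 * (n : ℤ) ∣ t →
      s a (b + t * a) = s a b) →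
    (∀ a w : ℤ, 4 * (n : ℤ) ∣ a - 1 → 4 * (n : ℤ) ∣ w → IsCoprime a w →
      ∃ c : Q, ∀ b : ℤ, 4 * (n : ℤ) ∣ b → IsCoprime a b → s a b = c * s a (b * w ^ 2)) →
    s 1 0 = 1 →
    ∀ a b : ℤ, 4 * (n : ℤ) ∣ a - 1 → 4 * (n : ℤ) ∣ b → IsCoprime a b → s a b = 1

/-- the transvections of Humphries' generators -/
def HumS (g : ℕ) : Set (SpG g) :=
  {X | (∃ i, X = T (ve i) 1) ∨ (∃ i, X = T (vf i) 1) ∨
    ∃ i i' : Fin g, (i' : ℕ) = i + 1 ∧ X = T (ve i + ve i') 1}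

/-- Transitivity.  Let `S` be an initial segment-free arbitrary finite set of handles, `k ∈ S`, `w`
supported on `S` and primitive. There is `X ∈ KS 1 S` with `X w = e_k`.  Proof. All `T v t`, `E u v t`
with `u, v` supported on `S` are in `KS 1 S`.  Induction on `N(w) = ∑_{i ∈ S} (|a_i| + |b_i|)`
(`a_i, b_i` the coordinates).  (a) If `a_i, b_i ≠ 0` for some `i`, then `T (ve i) (±1)` changes
`a_i` to `a_i ± b_i` and `T (vf i) (±1)` changes `b_i` to `b_i ∓ a_i` (everything else fixed), and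
one of the four decreases `N`.  (b) Otherwise every handle has at most one nonzero coordinate. If
two handles `i ≠ j` have nonzero coordinates, say with vectors `x ∈ {e_i, f_i}`, `y ∈ {e_j, f_j}`,
coefficients `c, d ≠ 0`, `|c| ≤ |d|`: let `x*` be the vector of `{± e_i, ± f_i}` with
`ω(x*, x) = 1`; `E x* y (±1)`: `z ↦ z ± (ω(x*, z) y + ω(y, z) x*)`, maps `c x + d y` to
`c x + (d ± c) y` (as `ω(y, z) = 0` for `z = w`) and fixes the other handles; one sign decreases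
`N`.  (c) Otherwise `w = c x` with `x ∈ {e_i, f_i}`, `c = ± 1` as `w` is primitive.  If `i ≠ k`,
`E x* e_k 1` gives `c x + c e_k`, and then with `e_k` in the role of `x` (`x* = - f_k`, coefficient
`c`) `E (-vf k) x (-1)` gives `c e_k`. If `i = k` and `x = f_k`: `T (ve k) 1` gives `c e_k + c f_k`
and `T (vf k) 1` gives `c e_k`.  Finally `c = -1`: `L k (-1) 0 0 (-1) = (T (ve k) 1 * T (vf k) 1 *
T (ve k) 1)^2` (check) maps `- e_k` to `e_k`. -/
def S_TR : Prop := ∀ (g : ℕ) (S : Finset (Fin g)) (k : Fin g), k ∈ S → ∀ w : VV g, Sup S w →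
  (∃ z, om w z = 1) → ∃ X ∈ KS 1 S, ac X w = ve k

/-- All transvections are in the group `𝒢` generated by `HumS g`.  Proof. (a) `𝒢` contains
`T (ve i) t`, `T (vf i) t` for all `t` (`T_zpow`), hence for each `i` all blocks
`A_i = T (ve i) 1 * T (vf i) 1 * T (ve i) 1` (`e_i ↦ - f_i`, `f_i ↦ e_i`; check the signs) and its
inverse.  (b) For neighbours `i, j` (`|i - j| = 1`): `T (ve i + ve j) 1 ∈ 𝒢`; conjugating by powers
of `A_i`, `A_j` (`T_conj`), `T (x + y) 1 ∈ 𝒢` for all `x ∈ {± e_i, ± f_i}`,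
`y ∈ {± e_j, ± f_j}`, so `E x y t ∈ 𝒢` for these (`E x y 1 = T (x+y) 1 * T x (-1) * T y (-1)`, and
`E x y t = (E x y 1)^t`).  (c) Every primitive `w` is mapped to `± e_0` by some element of `𝒢`
(`g ≥ 1`): induction on `N(w) = ∑ (i + 1) (|a_i| + |b_i|)`: as in `S_TR` (a) inside a handle; if
each handle has at most one nonzero coordinate, let `j` be the last handle with a nonzero
coordinate `d y`, `y ∈ {e_j, f_j}`, `j ≥ 1`, and `i = j - 1` with coordinate `c x` (`c` may be `0`).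
If `c ≠ 0` and `|c| ≤ |d|`: `d` becomes `d ± c`, `|d ± c| < |d|`, `N` decreases; if `|c| > |d|`:
`c` becomes `c ± d` and `N` decreases.  If `c = 0`: `E y* x 1` (with `ω(y*, y) = 1`, `x = e_i`) maps
`d y` to `d y + d x`, then `E x* y (-1)` to `d x`: `N` decreases from `(j+1)|d|` to `j |d|`
(all other handles unchanged).  (d) So for primitive `w`, `T w t = T (-w) t = Y T (e_0) t Y⁻¹ ∈ 𝒢`.
(e) Every `v ≠ 0` is `c w` with `w` primitive, and `T (c w) t = T w (c² t)` (`T_smul`). -/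
def S_HUM : Prop := ∀ (g : ℕ) (v : VV g) (t : ℤ), T v t ∈ Subgroup.closure (HumS g)

/-- `HumS g` generates the symplectic group.  Proof: let `𝒢` be generated by `HumS g`; by `S_HUM`,
`KS 1 S ≤ 𝒢`.  Show by induction on the cardinality of `S` that `Fx S M` implies `M ∈ 𝒢`.  `S = ∅`:
`M = 1` (`sp_ext_basis`). Else `k ∈ S`; `w = M e_k` is supported on `S` and primitive
(`ω(w, M f_k) = 1`); `X₁ ∈ KS 1 S` with `X₁ M e_k = e_k` by `S_TR`; then `S_FIXF` with `q = 1`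
(`Ga g 1 = ⊤`): `X₂ X₁ M` fixes `e_k, f_k`, so `Fx (S.erase k) (X₂ X₁ M)`. -/
def S_GEN : Prop := ∀ (g : ℕ) (M : SpG g),
  M ∈ Subgroup.closure (HumS g)

/-- Every automorphism of the surface group preserves the intersection form up to sign.
Proof. For `g = 0` trivial (all forms vanish).  Let `φ` be an automorphism and `Φ` its matrix on
`ℤ^{2g}` (`homologyClass (φ x) = Φ (homologyClass x)`: column `j` of `Φ` is
`homologyClass (φ (gen j))`).  For an integral matrix `β` (a bilinear form on `ℤ^{2g}`) let `K_β`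
be the group `ℤ^{2g} × ℤ` with `(x, s)(y, t) = (x + y, s + t + β(x, y))`; the commutator of
`(x, s)` and `(y, t)` is `(0, β(x, y) - β(y, x))`, central.  A homomorphism from the free group to
`K_β` lifting `j ↦ (x_j, s_j)` maps the relator to `(0, ∑_i B(x_{a_i}, x_{b_i}))`,
`B(x, y) = β(x, y) - β(y, x)`.  So if `∑_i B(e_{a_i}, e_{b_i}) = 0` there is
`θ : SurfaceGroup g →* K_β` with `gen j ↦ (e_j, 0)` (`outHom`), and `θ ∘ φ` maps `gen j` to
`(Φ e_j, s_j)` for some `s_j`; as the relator is trivial in the surface group,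
`∑_i B(Φ e_{a_i}, Φ e_{b_i}) = 0`.  Take `β(x, y) = x_p y_r - c x_{a_0} y_{b_0}` for indices
`p ≠ r`, where `c = ∑_i (δ_{p,a_i} δ_{r,b_i} - δ_{r,a_i} δ_{p,b_i})` (`c ∈ {1, -1, 0}`); we get
`(Φ J Φᵀ)_{p r} = c (Φ J Φᵀ)_{a_0 b_0} = n J_{p r}` with `J` the matrix of the bivector
`∑ a_i ∧ b_i` (`J_{p r} = c`) and `n = (Φ J Φᵀ)_{a_0 b_0}`.  So `Φ J Φᵀ = n J`.  Taking the inverse
automorphism (or determinants, `det Φ = ± 1`, `det J = 1`) gives `n^{2g} = 1`, `n = ± 1`. Then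
`Φᵀ J Φ = n J` (from `J² = -1`: `Φ (J Φᵀ J⁻¹) = n`, so `J Φᵀ J⁻¹ = n Φ⁻¹` commutes with `Φ`,
`J Φᵀ J⁻¹ Φ = n`, `Φᵀ J⁻¹ Φ = n J⁻¹`), i.e. `ω(Φ x, Φ y) = n ω(x, y)`. -/
def S_FORM : Prop := ∀ (g : ℕ) (φ : MulAut (SurfaceGroup g)),
  ∃ n : ℤ, (n = 1 ∨ n = -1) ∧ ∀ x y, intersectionForm (homologyClass (φ x)) (homologyClass (φ y)) =
    n * intersectionForm (homologyClass x) (homologyClass y)

end Pool.Agent.Q290.SC
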