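import Mathlib
import Pool.Agent.Helper111.EN.Resid

set_option autoImplicit false

/-! Finitely generated nilpotent groups: centres of finite quotients. -/

namespace Pool.Agent.Q290.SC

open scoped commutatorElement

/-- all subgroups of a finitely generated nilpotent group are finitely generated -/
theorem nil_fg (H : Type) [Group H] [Group.FG H] [Group.IsNilpotent H] (S : Subgroup H) : S.FG :=
  Helper111.EN.NSc.NS_of_nilpotent_fg (⊤ : Subgroup H)
    (Group.isNilpotent_top.2 inferInstance) Group.FG.out S le_top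

/-- a finitely generated nilpotent group is residually finite, for finitely many elements -/
theorem miss_fin (K : Type) [Group K] [Group.IsNilpotent K] [Group.FG K] (A : Set K)
    (hfin : A.Finite) (hA : (1 : K) ∉ A) :
    ∃ N : Subgroup K, N.FiniteIndex ∧ ∀ x ∈ A, x ∉ N := by
  classical
  have h1 : ∀ x : K, ∃ N : Subgroup K, N.FiniteIndex ∧ (x ≠ 1 → x ∉ N) := by
    intro x
    by_cases hx : x = 1
    · exact ⟨⊤, inferInstance, fun h => absurd hx h⟩
    · obtain ⟨r, -, -, N, hN, hxN, hfin, -⟩ := Helper111.EN.resid (K := K) ∅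
        (fun p hp => absurd hp (Set.notMem_empty p)) 2
        Nat.prime_two (Set.notMem_empty 2) (fun p hp => absurd hp (Set.notMem_empty p)) x hx
      exact ⟨N, Subgroup.finiteIndex_of_finite_quotient, fun _ => hxN⟩
  choose N hN1 hN2 using h1
  have := hfin.to_subtype
  refine ⟨⨅ x : A, N x, ?_, ?_⟩
  · exact Subgroup.finiteIndex_iInf fun x => hN1 x
  · intro x hx hxN
    have h2 : x ∈ N x := (Subgroup.mem_iInf.1 hxN) ⟨x, hx⟩
    exact hN2 x (fun h => hA (h ▸ hx)) h2

/-- the elements of a finitely generated abelian group whose image in a quotient is torsion -/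
theorem artin_rees {B : Type} [CommGroup B] [Group.FG B] (D : Subgroup B) (m : ℕ) (hm : 0 < m) :
    ∃ m' : ℕ, 0 < m' ∧ ∀ b : B, b ^ m' ∈ D → ∃ d ∈ D, b ^ m' = d ^ m := by
  have hfg : Group.FG (B ⧸ D) := QuotientGroup.fg _
  have hT : (CommGroup.torsion (B ⧸ D)).FG := nil_fg (B ⧸ D) _
  have hT' : Group.FG (CommGroup.torsion (B ⧸ D)) := (Group.fg_iff_subgroup_fg _).2 hT
  have hfin : Finite (CommGroup.torsion (B ⧸ D)) := by
    apply CommGroup.finite_of_fg_isMulTorsion
    intro x
    have hx : IsOfFinOrder (x : B ⧸ D) := x.2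
    exact (Submonoid.isOfFinOrder_coe (H := (CommGroup.torsion (B ⧸ D)).toSubmonoid) (x := x)).1 hx
  refine ⟨Nat.card (CommGroup.torsion (B ⧸ D)) * m, Nat.mul_pos Nat.card_pos hm, fun b hb => ?_⟩
  refine ⟨b ^ Nat.card (CommGroup.torsion (B ⧸ D)), ?_, pow_mul _ _ _⟩
  have h1 : IsOfFinOrder (b : B ⧸ D) := by
    rw [isOfFinOrder_iff_pow_eq_one]
    refine ⟨_, Nat.mul_pos (Nat.card_pos (α := CommGroup.torsion (B ⧸ D))) hm, ?_⟩
    rw [← QuotientGroup.mk_pow, QuotientGroup.eq_one_iff]
    exact hb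
  have h2 : (⟨(b : B ⧸ D), h1⟩ : CommGroup.torsion (B ⧸ D)) ^
      Nat.card (CommGroup.torsion (B ⧸ D)) = 1 := pow_card_eq_one'
  have h3 := congrArg Subtype.val h2
  rw [← QuotientGroup.eq_one_iff, QuotientGroup.mk_pow]
  exact h3

/-- the profinite topology of a finitely generated nilpotent group induces on central subgroups
the full one -/
theorem rf_central {N : Type} [Group N] [Group.FG N] [Group.IsNilpotent N] (C : Subgroup N)
    (hC : C ≤ Subgroup.center N) (m : ℕ) (hm : 0 < m) :
    ∃ R : Subgroup N, R.FiniteIndex ∧ ∀ y ∈ C, y ∈ R → ∃ b ∈ C, y = b ^ m := by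
  classical
  have hcomm : ∀ x ∈ C, ∀ y : N, y * x = x * y := fun x hx y =>
    Subgroup.mem_center_iff.1 (hC hx) y
  let P : Subgroup N :=
    { carrier := {y | ∃ b ∈ C, y = b ^ m}
      one_mem' := ⟨1, one_mem _, (one_pow m).symm⟩
      mul_mem' := by
        rintro _ _ ⟨b, hb, rfl⟩ ⟨c, hc, rfl⟩
        exact ⟨b * c, mul_mem hb hc, ((show Commute b c from (hcomm c hc b)).mul_pow m).symm⟩
      inv_mem' := by
        rintro _ ⟨b, hb, rfl⟩
        exact ⟨b⁻¹, inv_mem hb, (inv_pow b m).symm⟩ }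
  have hPC : P ≤ C := by
    rintro _ ⟨b, hb, rfl⟩
    exact pow_mem hb m
  have hPn : P.Normal := ⟨fun y hy x => by
    rw [hcomm y (hPC hy) x, mul_inv_cancel_right]
    exact hy⟩
  -- the image of `C` in `N / P` is finite
  have hfin : ((QuotientGroup.mk' P) '' (C : Set N)).Finite := by
    have hfg : (C.map (QuotientGroup.mk' P)).FG := nil_fg (N ⧸ P) _
    have hfg' : Group.FG (C.map (QuotientGroup.mk' P)) := (Group.fg_iff_subgroup_fg _).2 hfg
    letI : CommGroup (C.map (QuotientGroup.mk' P)) :=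
      { (inferInstance : Group (C.map (QuotientGroup.mk' P))) with
        mul_comm := by
          rintro ⟨_, x, hx, rfl⟩ ⟨_, y, hy, rfl⟩
          apply Subtype.ext
          show QuotientGroup.mk' P x * QuotientGroup.mk' P y =
            QuotientGroup.mk' P y * QuotientGroup.mk' P x
          rw [← map_mul, ← map_mul, hcomm y hy x] }
    have : Finite (C.map (QuotientGroup.mk' P)) := by
      apply CommGroup.finite_of_fg_isMulTorsion
      rintro ⟨_, x, hx, rfl⟩
      rw [isOfFinOrder_iff_pow_eq_one]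
      refine ⟨m, hm, ?_⟩
      apply Subtype.ext
      show (QuotientGroup.mk' P x) ^ m = 1
      rw [← map_pow, ← MonoidHom.mem_ker, QuotientGroup.ker_mk']
      exact ⟨x, hx, rfl⟩
    exact Set.toFinite (C.map (QuotientGroup.mk' P) : Set (N ⧸ P))
  obtain ⟨R0, hR1, hR2⟩ := miss_fin (N ⧸ P) (((QuotientGroup.mk' P) '' (C : Set N)) \ {1})
    (hfin.subset Set.diff_subset) (fun h => h.2 rfl)
  refine ⟨R0.comap (QuotientGroup.mk' P), ?_, ?_⟩
  · refine ⟨?_⟩
    rw [Subgroup.index_comap_of_surjective _ (QuotientGroup.mk'_surjective _)]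
    exact hR1.index_ne_zero
  · intro y hy hyR
    by_contra hne
    have h1 : QuotientGroup.mk' P y ≠ 1 := by
      intro h
      rw [← MonoidHom.mem_ker, QuotientGroup.ker_mk'] at h
      exact hne h
    exact hR2 _ ⟨⟨y, hy, rfl⟩, h1⟩ hyR

theorem mem_center_of_gen {G : Type} [Group G] {d : ℕ} (x : Fin d → G)
    (hx : Subgroup.closure (Set.range x) = ⊤) (z : G) (h : ∀ i, ⁅z, x i⁆ = 1) :
    z ∈ Subgroup.center G := by
  have h1 : Subgroup.closure (Set.range x) ≤ Subgroup.centralizer {z} := by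
    rw [Subgroup.closure_le]
    rintro _ ⟨i, rfl⟩
    rw [SetLike.mem_coe, Subgroup.mem_centralizer_singleton_iff]
    exact (commutatorElement_eq_one_iff_mul_comm.1 (h i)).symm
  rw [hx] at h1
  rw [Subgroup.mem_center_iff]
  intro y
  exact (Subgroup.mem_centralizer_singleton_iff.1 (h1 (Subgroup.mem_top y)))

/-- finite quotients of a finitely generated nilpotent group: an element which is central in a
sufficiently large finite quotient is central up to an element of a given subgroup of finite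
index -/
theorem center_lemma (N : Type) [Group N] [Group.IsNilpotent N] : Group.FG N →
    ∀ R : Subgroup N, R.FiniteIndex → ∃ S : Subgroup N, S.FiniteIndex ∧
      ∀ w : N, (∀ x, ⁅w, x⁆ ∈ S) → ∃ z ∈ Subgroup.center N, z⁻¹ * w ∈ R := by
  refine Group.nilpotent_center_quotient_ind (P := fun G _ _ => Group.FG G →
    ∀ R : Subgroup G, R.FiniteIndex → ∃ S : Subgroup G, S.FiniteIndex ∧
      ∀ w : G, (∀ x, ⁅w, x⁆ ∈ S) → ∃ z ∈ Subgroup.center G, z⁻¹ * w ∈ R) N ?_ ?_
  · intro G _ _ _ R _
    refine ⟨⊤, inferInstance, fun w _ => ⟨w, ?_, by rw [inv_mul_cancel]; exact one_mem _⟩⟩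
    rw [Subgroup.mem_center_iff]
    intro y
    exact Subsingleton.elim _ _
  · intro G _ _ ih hG R hR
    have hnormR : R.normalCore.FiniteIndex := inferInstance
    let m := R.normalCore.index
    have hm : 0 < m := Nat.pos_of_ne_zero hnormR.index_ne_zero
    have hpow : ∀ x : G, x ^ m ∈ R := fun x =>
      Subgroup.normalCore_le _ (Subgroup.pow_index_mem R.normalCore x)
    obtain ⟨d, x, hx⟩ : ∃ (d : ℕ) (x : Fin d → G), Subgroup.closure (Set.range x) = ⊤ := by
      obtain ⟨s, hs⟩ := Group.fg_def.1 hG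
      refine ⟨s.card, fun i => (s.equivFin.symm i : G), ?_⟩
      rw [← hs]
      congr 1
      ext y
      constructor
      · rintro ⟨i, rfl⟩; exact (s.equivFin.symm i).2
      · intro hy; exact ⟨s.equivFin ⟨y, hy⟩, by simp⟩
    let Z := Subgroup.center G
    letI icZ : CommGroup Z :=
      { (inferInstance : Group Z) with
        mul_comm := fun a b => Subtype.ext ((Subgroup.mem_center_iff.1 b.2) (a : G)) }
    let Z2 : Subgroup G := (Subgroup.center (G ⧸ Z)).comap (QuotientGroup.mk' Z)
    have hZ2 : ∀ z ∈ Z2, ∀ y, ⁅z, y⁆ ∈ Z := by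
      intro z hz y
      have h1 : QuotientGroup.mk' Z z ∈ Subgroup.center (G ⧸ Z) := hz
      rw [← QuotientGroup.ker_mk' Z, MonoidHom.mem_ker, map_commutatorElement,
        commutatorElement_eq_one_iff_mul_comm]
      exact (Subgroup.mem_center_iff.1 h1 _).symm
    have hcen : ∀ z ∈ Z, ∀ y : G, y * z = z * y := fun z hz y => Subgroup.mem_center_iff.1 hz y
    -- the commutators with the generators
    let θ : Z2 →* (Fin d → Z) :=
      { toFun := fun z i => ⟨⁅(z : G), x i⁆, hZ2 z z.2 _⟩
        map_one' := by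
          funext i
          apply Subtype.ext
          show ⁅(1 : G), x i⁆ = 1
          exact commutatorElement_one_left _
        map_mul' := by
          intro z z'
          funext i
          apply Subtype.ext
          show ⁅(z : G) * z', x i⁆ = ⁅(z : G), x i⁆ * ⁅(z' : G), x i⁆
          have e : ⁅(z : G) * z', x i⁆ = z * ⁅(z' : G), x i⁆ * (z : G)⁻¹ * ⁅(z : G), x i⁆ := by
            simp only [commutatorElement_def]; group
          rw [e, hcen _ (hZ2 z' z'.2 (x i)) (z : G), mul_inv_cancel_right,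
            hcen _ (hZ2 z z.2 (x i)) _] }
    have hfgZ : Group.FG Z := (Group.fg_iff_subgroup_fg _).2 (nil_fg G Z)
    have hfgB : Group.FG (Fin d → Z) := inferInstance
    obtain ⟨m', hm', har⟩ := artin_rees (B := Fin d → Z) θ.range m hm
    obtain ⟨R0, hR0, hrf⟩ := rf_central Z le_rfl m' hm'
    let R' : Subgroup G := (R ⊓ R0).normalCore
    have hR' : R'.FiniteIndex := inferInstance
    have hR'n : R'.Normal := inferInstance
    have hR'R : R' ≤ R := (Subgroup.normalCore_le _).trans inf_le_left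
    have hR'0 : R' ≤ R0 := (Subgroup.normalCore_le _).trans inf_le_right
    obtain ⟨S0, hS0, hS⟩ := ih (QuotientGroup.fg _) (R'.map (QuotientGroup.mk' Z)) (by
      refine ⟨fun h => ?_⟩
      have h1 := Subgroup.index_map_dvd R' (QuotientGroup.mk'_surjective Z)
      rw [h] at h1
      exact hR'.index_ne_zero (Nat.eq_zero_of_zero_dvd h1))
    refine ⟨S0.comap (QuotientGroup.mk' Z) ⊓ R', ?_, ?_⟩
    · have : (S0.comap (QuotientGroup.mk' Z)).FiniteIndex := by
        refine ⟨?_⟩
        rw [Subgroup.index_comap_of_surjective _ (QuotientGroup.mk'_surjective _)]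
        exact hS0.index_ne_zero
      infer_instance
    · intro w hw
      obtain ⟨zb, hzb, r0, hr0, hr0e⟩ := hS (QuotientGroup.mk' Z w) (by
        intro xb
        obtain ⟨y, rfl⟩ := QuotientGroup.mk'_surjective Z xb
        rw [← map_commutatorElement]
        exact (hw y).1)
      obtain ⟨z, rfl⟩ := QuotientGroup.mk'_surjective Z zb
      have hz : z ∈ Z2 := hzb
      -- `z⁻¹ w = r0 c` with `c` central
      have hc : (r0)⁻¹ * (z⁻¹ * w) ∈ Z := by
        rw [← QuotientGroup.ker_mk' Z, MonoidHom.mem_ker, map_mul, map_inv, map_mul, map_inv,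
          hr0e]
        group
      obtain ⟨c, hce⟩ : ∃ c, c = (r0)⁻¹ * (z⁻¹ * w) := ⟨_, rfl⟩
      rw [← hce] at hc
      have hwe : w = z * c * r0 := by
        have h1 : w = z * (r0 * c) := by rw [hce]; group
        rw [h1, hcen c hc r0, mul_assoc]
      have hzc : z * c ∈ Z2 := by
        refine mul_mem hz ?_
        show QuotientGroup.mk' Z c ∈ Subgroup.center (G ⧸ Z)
        have : QuotientGroup.mk' Z c = 1 := by
          rw [← MonoidHom.mem_ker, QuotientGroup.ker_mk']; exact hc
        rw [this]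
        exact one_mem _
      -- the commutators `[zc, x]` lie in `R'`
      have hcomR : ∀ y, ⁅z * c, y⁆ ∈ R' := by
        intro y
        have h1 : ⁅w, y⁆ ∈ R' := (hw y).2
        have e : ⁅z * c, y⁆ = (z * c * ⁅r0, y⁆ * (z * c)⁻¹)⁻¹ * ⁅w, y⁆ := by
          rw [hwe]; simp only [commutatorElement_def]; group
        rw [e]
        refine mul_mem (inv_mem (hR'n.conj_mem _ ?_ _)) h1
        rw [commutatorElement_def]
        have : r0 * y * r0⁻¹ * y⁻¹ = r0 * (y * r0⁻¹ * y⁻¹) := by group
        rw [this]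
        exact mul_mem hr0 (hR'n.conj_mem _ (inv_mem hr0) _)
      have hb : ∀ i, ∃ b : Z, θ ⟨z * c, hzc⟩ i = b ^ m' := by
        intro i
        obtain ⟨b, hb, hbe⟩ := hrf ⁅z * c, x i⁆ (hZ2 _ hzc _) (hR'0 (hcomR (x i)))
        exact ⟨⟨b, hb⟩, Subtype.ext hbe⟩
      choose b hb using hb
      have hb' : θ ⟨z * c, hzc⟩ = b ^ m' := funext hb
      obtain ⟨d', ⟨z', hz'⟩, hd'⟩ := har b (hb' ▸ ⟨_, rfl⟩)
      have hθ : θ (⟨z * c, hzc⟩ * (z' ^ m)⁻¹) = 1 := by
        rw [map_mul, map_inv, map_pow, hz', ← hd', hb', mul_inv_cancel]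
      have hcz : z * c * ((z' : G) ^ m)⁻¹ ∈ Z := by
        refine mem_center_of_gen x hx _ fun i => ?_
        exact congrArg Subtype.val (congrFun hθ i)
      refine ⟨z * c * ((z' : G) ^ m)⁻¹, hcz, ?_⟩
      have e : (z * c * ((z' : G) ^ m)⁻¹)⁻¹ * w = (z' : G) ^ m * r0 := by
        rw [hwe]; group
      rw [e]
      exact mul_mem (hpow _) (hR'R hr0)

end Pool.Agent.Q290.SC
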