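import Mathlib
import Pool.Agent.Q290.SC.NilA

set_option autoImplicit false

/-! Automorphisms acting as inner automorphisms on nilpotent quotients. -/

namespace Pool.Agent.Q290.SC

open scoped commutatorElement

/-- the terms of the lower central series, `gm G 0 = G` -/
abbrev gm (G : Type) [Group G] (n : ℕ) : Subgroup G := (⊤ : Subgroup G).lowerCentralSeries n

variable {G : Type} [Group G]

/-- `φ` acts on `G/P` as an inner automorphism -/
def InnM (P : Subgroup G) (φ : MulAut G) : Prop := ∃ h : G, ∀ x : G, φ x * (h * x * h⁻¹)⁻¹ ∈ P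

/-- `H` contains all automorphisms which act as inner automorphisms on `G/Γ`, for some
characteristic subgroup `Γ` of finite index -/
def CongS (H : Subgroup (MulAut G)) : Prop :=
  ∃ Γ : Subgroup G, Γ.Characteristic ∧ Γ.FiniteIndex ∧ ∀ φ, InnM Γ φ → φ ∈ H

theorem three (N H1 H2 H3 : Subgroup G) [N.Normal] (h1 : ⁅⁅H2, H3⁆, H1⁆ ≤ N)
    (h2 : ⁅⁅H3, H1⁆, H2⁆ ≤ N) : ⁅⁅H1, H2⁆, H3⁆ ≤ N := by
  have key : ∀ X : Subgroup G, X ≤ N ↔ X.map (QuotientGroup.mk' N) = ⊥ := by
    intro X
    rw [Subgroup.map_eq_bot_iff, QuotientGroup.ker_mk']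
  rw [key, Subgroup.map_commutator, Subgroup.map_commutator] at h1 h2 ⊢
  exact Subgroup.commutator_commutator_eq_bot_of_rotate h1 h2

theorem lcs_comm (j : ℕ) : ∀ i, ⁅gm G i, gm G j⁆ ≤ gm G (i + j + 1) := by
  induction j with
  | zero =>
    intro i
    rfl
  | succ j ih =>
    intro i
    rw [Subgroup.commutator_comm, gm, Subgroup.lowerCentralSeries_succ]
    apply three
    · rw [Subgroup.commutator_comm ⊤, ← Subgroup.lowerCentralSeries_succ]
      refine (ih (i + 1)).trans (le_of_eq ?_)
      congr 1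
      omega
    · have h1 := Subgroup.commutator_mono (ih i) (le_refl (⊤ : Subgroup G))
      rw [← Subgroup.lowerCentralSeries_succ] at h1
      refine h1.trans (le_of_eq ?_)
      congr 1

theorem gm_anti {m n : ℕ} (h : m ≤ n) : gm G n ≤ gm G m :=
  Subgroup.lowerCentralSeries_antitone _ h

/-- an automorphism which is trivial on the abelianization is trivial on the factors of the lower
central series -/
theorem ia_step (φ : MulAut G) (h1 : ∀ x, φ x * x⁻¹ ∈ gm G 1) :
    ∀ n, ∀ y ∈ gm G n, φ y * y⁻¹ ∈ gm G (n + 1) := by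
  intro n
  induction n with
  | zero => intro y _; exact h1 y
  | succ n ih =>
    intro y hy
    have hN : (gm G (n + 1 + 1)).Normal := inferInstance
    rw [gm, Subgroup.lowerCentralSeries_succ, Subgroup.commutator_def] at hy
    have key : y ∈ gm G (n + 1) ∧ φ y * y⁻¹ ∈ gm G (n + 1 + 1) := by
      induction hy using Subgroup.closure_induction with
      | mem y hy =>
        obtain ⟨a, ha, b, -, rfl⟩ := hy
        refine ⟨Subgroup.commutator_mem_commutator ha (Subgroup.mem_top b), ?_⟩
        obtain ⟨a', ha'e⟩ : ∃ a', a' = φ a * a⁻¹ := ⟨_, rfl⟩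
        obtain ⟨b', hb'e⟩ : ∃ b', b' = φ b * b⁻¹ := ⟨_, rfl⟩
        have ha' : a' ∈ gm G (n + 1) := ha'e ▸ ih a ha
        have hb' : b' ∈ gm G 1 := hb'e ▸ h1 b
        have hφa : φ a = a' * a := by rw [ha'e]; group
        have hφb : φ b = b' * b := by rw [hb'e]; group
        have hc : ∀ u ∈ gm G (n + 1), ∀ v : G, (QuotientGroup.mk' (gm G (n + 1 + 1)) u) *
            (QuotientGroup.mk' (gm G (n + 1 + 1)) v) =
            (QuotientGroup.mk' (gm G (n + 1 + 1)) v) *
            (QuotientGroup.mk' (gm G (n + 1 + 1)) u) := by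
          intro u hu v
          rw [← commutatorElement_eq_one_iff_mul_comm, ← map_commutatorElement,
            ← MonoidHom.mem_ker, QuotientGroup.ker_mk']
          exact Subgroup.commutator_mem_commutator hu (Subgroup.mem_top v)
        have hab : (QuotientGroup.mk' (gm G (n + 1 + 1)) a) *
            (QuotientGroup.mk' (gm G (n + 1 + 1)) b') =
            (QuotientGroup.mk' (gm G (n + 1 + 1)) b') *
            (QuotientGroup.mk' (gm G (n + 1 + 1)) a) := by
          rw [← commutatorElement_eq_one_iff_mul_comm, ← map_commutatorElement,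
            ← MonoidHom.mem_ker, QuotientGroup.ker_mk']
          exact lcs_comm 1 n (Subgroup.commutator_mem_commutator ha hb')
        have hcc := hc ⁅a, b⁆ (Subgroup.commutator_mem_commutator ha (Subgroup.mem_top b)) b'
        rw [← QuotientGroup.ker_mk' (gm G (n + 1 + 1)), MonoidHom.mem_ker, map_mul, map_inv,
          mul_inv_eq_one, map_commutatorElement φ, hφa, hφb]
        rw [map_commutatorElement, map_mul, map_mul]
        rw [map_commutatorElement] at hcc ⊢
        have h3 := hc a' ha' a
        have h4 := hc a' ha' b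
        have h5 := hc a' ha' b'
        generalize QuotientGroup.mk' (gm G (n + 1 + 1)) a' = A' at *
        generalize QuotientGroup.mk' (gm G (n + 1 + 1)) a = A at *
        generalize QuotientGroup.mk' (gm G (n + 1 + 1)) b' = B' at *
        generalize QuotientGroup.mk' (gm G (n + 1 + 1)) b = B at *
        have e1 : ⁅A' * A, B' * B⁆ = ⁅A, B' * B⁆ := by
          rw [commutatorElement_def, commutatorElement_def]
          have h6 : A' * (A * (B' * B) * A⁻¹) = (A * (B' * B) * A⁻¹) * A' := by
            have c3 : Commute A' A := h3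
            have c4 : Commute A' B := h4
            have c5 : Commute A' B' := h5
            exact ((c3.mul_right (c5.mul_right c4)).mul_right c3.inv_right)
          calc A' * A * (B' * B) * (A' * A)⁻¹ * (B' * B)⁻¹
              = (A' * (A * (B' * B) * A⁻¹)) * A'⁻¹ * (B' * B)⁻¹ := by group
            _ = A * (B' * B) * A⁻¹ * (B' * B)⁻¹ := by rw [h6]; group
        rw [e1]
        calc ⁅A, B' * B⁆ = (A * B') * B * A⁻¹ * B⁻¹ * B'⁻¹ := by
              rw [commutatorElement_def]; group
          _ = B' * ⁅A, B⁆ * B'⁻¹ := by rw [hab, commutatorElement_def]; group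
          _ = ⁅A, B⁆ := by rw [← hcc, mul_inv_cancel_right]
      | one => exact ⟨one_mem _, by rw [map_one, inv_one, mul_one]; exact one_mem _⟩
      | mul x y _ _ hx hy =>
        refine ⟨mul_mem hx.1 hy.1, ?_⟩
        have e : φ (x * y) * (x * y)⁻¹ = (φ x * x⁻¹) * (x * (φ y * y⁻¹) * x⁻¹) := by
          rw [map_mul]; group
        rw [e]
        exact mul_mem hx.2 (hN.conj_mem _ hy.2 _)
      | inv x _ hx =>
        refine ⟨inv_mem hx.1, ?_⟩
        have e : φ x⁻¹ * x⁻¹⁻¹ = x⁻¹ * (φ x * x⁻¹)⁻¹ * x⁻¹⁻¹ := by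
          rw [map_inv]; group
        rw [e]
        exact hN.conj_mem _ (inv_mem hx.2) _
    exact key.2

/-! ### characteristic subgroups of finite index -/

theorem finite_hom {R : Type} [Group R] (hR : Group.FG R) (H : Type) [Group H] [Finite H] :
    Finite (R →* H) := by
  obtain ⟨S', hS, hfin⟩ := Group.fg_iff.mp hR
  have : Finite S' := hfin
  refine Finite.of_injective (fun (f : R →* H) (s : S') => f s) ?_
  intro f g hfg
  apply MonoidHom.eq_of_eqOn_dense hS
  intro x hx
  exact congrFun hfg ⟨x, hx⟩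

theorem charCore {R : Type} [Group R] (hR : Group.FG R) (S : Subgroup R) [hS : S.FiniteIndex] :
    ∃ K : Subgroup R, K.Characteristic ∧ K.FiniteIndex ∧ K ≤ S := by
  have hq : Finite (R ⧸ S) := Subgroup.finite_quotient_of_finiteIndex
  let n := Nat.card (R ⧸ S)
  let e : R ⧸ S ≃ Fin n := Finite.equivFin _
  have hfin : Finite (R →* Equiv.Perm (Fin n)) := finite_hom hR _
  refine ⟨⨅ f : R →* Equiv.Perm (Fin n), f.ker, ⟨?_⟩, ?_, ?_⟩
  · intro φ
    ext x
    simp only [Subgroup.mem_comap, Subgroup.mem_iInf, MonoidHom.mem_ker]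
    constructor
    · intro h f
      have := h (f.comp φ.symm.toMonoidHom)
      simpa using this
    · intro h f
      exact h (f.comp φ.toMonoidHom)
  · apply Subgroup.finiteIndex_iInf
    intro f
    infer_instance
  · intro x hx
    rw [Subgroup.mem_iInf] at hx
    have h1 := hx ((e.permCongrHom.toMonoidHom).comp (MulAction.toPermHom R (R ⧸ S)))
    rw [MonoidHom.mem_ker, MonoidHom.comp_apply] at h1
    have h2 : MulAction.toPermHom R (R ⧸ S) x = 1 :=
      e.permCongrHom.injective (by rw [map_one]; exact h1)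
    have h3 := congrArg (fun p => p ((1 : R) : R ⧸ S)) h2
    simp only [MulAction.toPermHom_apply, MulAction.toPerm_apply, Equiv.Perm.one_apply] at h3
    have h4 : ((x * 1 : R) : R ⧸ S) = ((1 : R) : R ⧸ S) := h3
    rw [mul_one, eq_comm, QuotientGroup.eq] at h4
    simpa using h4

/-- the automorphism induced on the quotient by a characteristic subgroup -/
noncomputable def qHom (P : Subgroup G) [hP : P.Characteristic] : MulAut G →* MulAut (G ⧸ P) where
  toFun φ := QuotientGroup.congr P P φ (Subgroup.characteristic_iff_map_eq.1 hP φ)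
  map_one' := by
    ext x
    obtain ⟨x, rfl⟩ := QuotientGroup.mk_surjective x
    rfl
  map_mul' φ ψ := by
    ext x
    obtain ⟨x, rfl⟩ := QuotientGroup.mk_surjective x
    rfl

theorem qHom_mk (P : Subgroup G) [P.Characteristic] (φ : MulAut G) (x : G) :
    qHom P φ (x : G ⧸ P) = ((φ x : G) : G ⧸ P) := rfl

theorem innM_iff (P : Subgroup G) [P.Characteristic] (φ : MulAut G) :
    InnM P φ ↔ qHom P φ ∈ (MulAut.conj : (G ⧸ P) →* MulAut (G ⧸ P)).range := by
  constructor
  · rintro ⟨h, hh⟩
    refine ⟨(h : G ⧸ P), ?_⟩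
    ext x
    obtain ⟨x, rfl⟩ := QuotientGroup.mk_surjective x
    rw [qHom_mk, MulAut.conj_apply]
    have h1 := hh x
    rw [← QuotientGroup.eq_one_iff, QuotientGroup.mk_mul, QuotientGroup.mk_inv,
      mul_inv_eq_one] at h1
    rw [h1]
    rfl
  · rintro ⟨h, hh⟩
    obtain ⟨h, rfl⟩ := QuotientGroup.mk_surjective h
    refine ⟨h, fun x => ?_⟩
    rw [← QuotientGroup.eq_one_iff, QuotientGroup.mk_mul, QuotientGroup.mk_inv,
      mul_inv_eq_one, ← qHom_mk, ← hh]
    rfl

/-- the automorphisms acting as inner automorphisms on `G/P` -/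
noncomputable def JJ (P : Subgroup G) [P.Characteristic] : Subgroup (MulAut G) :=
  (MulAut.conj : (G ⧸ P) →* MulAut (G ⧸ P)).range.comap (qHom P)

theorem mem_JJ {P : Subgroup G} [P.Characteristic] {φ : MulAut G} : φ ∈ JJ P ↔ InnM P φ :=
  (innM_iff P φ).symm

instance (P : Subgroup G) [P.Characteristic] : (JJ P).Normal := by
  have : ((MulAut.conj : (G ⧸ P) →* MulAut (G ⧸ P)).range).Normal := by
    refine ⟨?_⟩
    rintro _ ⟨x, rfl⟩ ψ
    refine ⟨ψ x, ?_⟩
    ext y
    simp only [MulAut.conj_apply, MulAut.mul_apply, map_mul, map_inv, MulAut.apply_inv_self]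
  exact Subgroup.Normal.comap this _

theorem JJ_fi (P : Subgroup G) [P.Characteristic] [hf : P.FiniteIndex] : (JJ P).FiniteIndex := by
  have : Finite (G ⧸ P) := Subgroup.finite_quotient_of_finiteIndex
  have h1 : Finite (MulAut (G ⧸ P)) :=
    Finite.of_injective (fun f : MulAut (G ⧸ P) => (f : (G ⧸ P) → (G ⧸ P))) DFunLike.coe_injective
  have h2 : (qHom P).ker.FiniteIndex := Subgroup.finiteIndex_ker _
  refine Subgroup.finiteIndex_of_le (H := (qHom P).ker) ?_
  intro φ hφ
  show qHom P φ ∈ (MulAut.conj : (G ⧸ P) →* MulAut (G ⧸ P)).range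
  rw [(MonoidHom.mem_ker).1 hφ]
  exact one_mem _

theorem conj_JJ (P : Subgroup G) [P.Characteristic] (h : G) : MulAut.conj h ∈ JJ P :=
  mem_JJ.2 ⟨h, fun x => by rw [MulAut.conj_apply, mul_inv_cancel]; exact one_mem _⟩

end Pool.Agent.Q290.SC
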