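import Mathlib
import Pool.Agent.Q290.SC.NilB

set_option autoImplicit false

/-! The lifting step along the lower central series. -/

namespace Pool.Agent.Q290.SC

open scoped commutatorElement

variable {G : Type} [Group G]

instance nilp_quot (n : ℕ) : Group.IsNilpotent (G ⧸ gm G n) := by
  rw [Subgroup.nilpotent_iff_lowerCentralSeries]
  refine ⟨n, ?_⟩
  have h := Subgroup.map_lowerCentralSeries (⊤ : Subgroup G) (QuotientGroup.mk' (gm G n)) n
  rw [Subgroup.map_top_of_surjective _ (QuotientGroup.mk'_surjective _)] at h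
  rw [← h]
  have h2 : (gm G n).map (QuotientGroup.mk' (gm G n)) = ⊥ := by
    rw [Subgroup.map_eq_bot_iff, QuotientGroup.ker_mk']
  exact h2

theorem exists_gens (hG : Group.FG G) :
    ∃ (d : ℕ) (x : Fin d → G), Subgroup.closure (Set.range x) = ⊤ := by
  obtain ⟨s, hs⟩ := Group.fg_def.1 hG
  refine ⟨s.card, fun i => (s.equivFin.symm i : G), ?_⟩
  rw [← hs]
  congr 1
  ext y
  constructor
  · rintro ⟨i, rfl⟩; exact (s.equivFin.symm i).2
  · intro hy; exact ⟨s.equivFin ⟨y, hy⟩, by simp⟩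

/-- automorphisms trivial modulo `P` -/
theorem triv_gen (P : Subgroup G) [hP : P.Normal] (φ : MulAut G) {d : ℕ} (x : Fin d → G)
    (hx : Subgroup.closure (Set.range x) = ⊤) (h : ∀ i, φ (x i) * (x i)⁻¹ ∈ P) (y : G) :
    φ y * y⁻¹ ∈ P := by
  have hy : y ∈ Subgroup.closure (Set.range x) := by rw [hx]; exact Subgroup.mem_top y
  induction hy using Subgroup.closure_induction with
  | mem y hy => obtain ⟨i, rfl⟩ := hy; exact h i
  | one => rw [map_one, inv_one, mul_one]; exact one_mem _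
  | mul x y _ _ hx hy =>
    have e : φ (x * y) * (x * y)⁻¹ = (φ x * x⁻¹) * (x * (φ y * y⁻¹) * x⁻¹) := by
      rw [map_mul]; group
    rw [e]
    exact mul_mem hx (hP.conj_mem _ hy _)
  | inv x _ hx =>
    have e : φ x⁻¹ * x⁻¹⁻¹ = x⁻¹ * (φ x * x⁻¹)⁻¹ * x⁻¹⁻¹ := by
      rw [map_inv]; group
    rw [e]
    exact hP.conj_mem _ (inv_mem hx) _

/-- the automorphisms trivial on `G / gm G k` -/
def IAk (G : Type) [Group G] (k : ℕ) : Subgroup (MulAut G) where
  carrier := {φ | ∀ x, φ x * x⁻¹ ∈ gm G k}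
  one_mem' := fun x => by
    show x * x⁻¹ ∈ _
    rw [mul_inv_cancel]; exact one_mem (gm G k)
  mul_mem' := by
    intro φ ψ hφ hψ x
    have e : (φ * ψ) x * x⁻¹ = (φ (ψ x) * (ψ x)⁻¹) * (ψ x * x⁻¹) := by
      rw [MulAut.mul_apply]; group
    rw [e]
    exact mul_mem (hφ _) (hψ _)
  inv_mem' := by
    intro φ hφ x
    have e : φ⁻¹ x * x⁻¹ = (φ (φ⁻¹ x) * (φ⁻¹ x)⁻¹)⁻¹ := by
      rw [MulAut.apply_inv_self]; group
    rw [e]
    exact inv_mem (hφ _)

theorem crux [hG : Group.FG G] (k : ℕ) (hk : 1 ≤ k) (H : Subgroup (MulAut G)) [hH : H.FiniteIndex]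
    (hJ : ∀ φ, InnM (gm G (k + 1)) φ → φ ∈ H) :
    ∃ Γ : Subgroup G, Γ.Characteristic ∧ Γ.FiniteIndex ∧
      ∀ φ ∈ IAk G k, InnM Γ φ → φ ∈ H := by
  have hnorm : H.normalCore.FiniteIndex := inferInstance
  obtain ⟨m, hm⟩ : ∃ m, m = H.normalCore.index := ⟨_, rfl⟩
  have hm0 : 0 < m := by rw [hm]; exact Nat.pos_of_ne_zero hnorm.index_ne_zero
  have hpow : ∀ ψ : MulAut G, ψ ^ m ∈ H := fun ψ => by
    rw [hm]; exact Subgroup.normalCore_le _ (Subgroup.pow_index_mem H.normalCore ψ)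
  obtain ⟨d, x, hx⟩ := exists_gens hG
  have hfgN : Group.FG (G ⧸ gm G (k + 1)) := QuotientGroup.fg _
  have hfgN' : Group.FG (G ⧸ gm G k) := QuotientGroup.fg _
  obtain ⟨π, hπ⟩ : ∃ π, π = QuotientGroup.mk' (gm G (k + 1)) := ⟨_, rfl⟩
  have hker : ∀ y, π y = 1 ↔ y ∈ gm G (k + 1) := by
    intro y; rw [hπ, ← MonoidHom.mem_ker, QuotientGroup.ker_mk']
  -- the image of `gm G k` is central
  let C : Subgroup (G ⧸ gm G (k + 1)) := (gm G k).map π
  have hCc : C ≤ Subgroup.center (G ⧸ gm G (k + 1)) := by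
    rintro _ ⟨y, hy, rfl⟩
    rw [Subgroup.mem_center_iff]
    intro z
    obtain ⟨z, rfl⟩ := QuotientGroup.mk'_surjective (gm G (k + 1)) z
    rw [← hπ]
    symm
    rw [← commutatorElement_eq_one_iff_mul_comm, ← map_commutatorElement, hker]
    exact Subgroup.commutator_mem_commutator hy (Subgroup.mem_top z)
  letI icC : CommGroup C :=
    { (inferInstance : Group C) with
      mul_comm := fun a b => Subtype.ext ((Subgroup.mem_center_iff.1 (hCc b.2)) a) }
  have hfgC : Group.FG C := (Group.fg_iff_subgroup_fg _).2 (nil_fg _ C)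
  have hstep : ∀ φ ∈ IAk G k, ∀ y ∈ gm G k, φ y * y⁻¹ ∈ gm G (k + 1) := by
    intro φ hφ y hy
    exact ia_step φ (fun z => gm_anti hk (hφ z)) k y hy
  -- the homomorphism to `C^d`
  let δ : IAk G k →* (Fin d → C) :=
    { toFun := fun φ i => ⟨π ((φ : MulAut G) (x i) * (x i)⁻¹), ⟨_, φ.2 (x i), rfl⟩⟩
      map_one' := by
        funext i
        apply Subtype.ext
        show π (x i * (x i)⁻¹) = 1
        rw [mul_inv_cancel, map_one]
      map_mul' := by
        rintro ⟨φ, hφ⟩ ⟨ψ, hψ⟩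
        funext i
        apply Subtype.ext
        show π ((φ * ψ) (x i) * (x i)⁻¹) = π (φ (x i) * (x i)⁻¹) * π (ψ (x i) * (x i)⁻¹)
        have h1 := hstep φ hφ (ψ (x i) * (x i)⁻¹) (hψ (x i))
        rw [← hker, map_mul π, map_inv π, mul_inv_eq_one] at h1
        have e : (φ * ψ) (x i) * (x i)⁻¹ =
            φ (ψ (x i) * (x i)⁻¹) * (φ (x i) * (x i)⁻¹) := by
          rw [MulAut.mul_apply, map_mul φ, map_inv φ]; group
        rw [e, map_mul π, h1, ← map_mul π]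
        have h2 : π (ψ (x i) * (x i)⁻¹) ∈ Subgroup.center (G ⧸ gm G (k + 1)) :=
          hCc ⟨_, hψ (x i), rfl⟩
        rw [map_mul π, ← Subgroup.mem_center_iff.1 h2] }
  have hδ : ∀ φ : IAk G k, δ φ = 1 → (φ : MulAut G) ∈ H := by
    intro φ h
    refine hJ _ ⟨1, fun y => ?_⟩
    have h1 : ∀ i, (φ : MulAut G) (x i) * (x i)⁻¹ ∈ gm G (k + 1) := by
      intro i
      rw [← hker]
      exact congrArg Subtype.val (congrFun h i)
    have h2 := triv_gen (gm G (k + 1)) (φ : MulAut G) x hx h1 y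
    simpa using h2
  obtain ⟨m', hm', har⟩ := artin_rees (B := Fin d → C) δ.range m hm0
  obtain ⟨R0, hR0, hrf⟩ := rf_central C hCc m' hm'
  -- the characteristic subgroup `R`
  have hR0' : (R0.comap π).FiniteIndex := by
    refine ⟨?_⟩
    rw [hπ, Subgroup.index_comap_of_surjective _ (QuotientGroup.mk'_surjective _)]
    exact hR0.index_ne_zero
  obtain ⟨R, hRc, hRf, hRR⟩ := charCore hG (R0.comap π)
  -- the centre
  obtain ⟨S, hS, hcen⟩ := center_lemma (G ⧸ gm G k) hfgN'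
    (R.map (QuotientGroup.mk' (gm G k))) (by
      refine ⟨fun h => ?_⟩
      have h1 := Subgroup.index_map_dvd R (QuotientGroup.mk'_surjective (gm G k))
      rw [h] at h1
      exact hRf.index_ne_zero (Nat.eq_zero_of_zero_dvd h1))
  have hS' : (S.comap (QuotientGroup.mk' (gm G k)) ⊓ R).FiniteIndex := by
    have : (S.comap (QuotientGroup.mk' (gm G k))).FiniteIndex := by
      refine ⟨?_⟩
      rw [Subgroup.index_comap_of_surjective _ (QuotientGroup.mk'_surjective _)]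
      exact hS.index_ne_zero
    infer_instance
  obtain ⟨Γ, hΓc, hΓf, hΓ⟩ := charCore hG (S.comap (QuotientGroup.mk' (gm G k)) ⊓ R)
  refine ⟨Γ, hΓc, hΓf, fun φ hφ hinn => ?_⟩
  obtain ⟨w, hw⟩ := hinn
  have hRn : R.Normal := inferInstance
  have hΓn : Γ.Normal := inferInstance
  have hgn : (gm G k).Normal := inferInstance
  -- the commutators `[w, y]` are in `S` modulo `gm G k`
  obtain ⟨zb, hzb, r0, hr0, hr0e⟩ := hcen (QuotientGroup.mk' (gm G k) w) (by
    intro yb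
    obtain ⟨y, rfl⟩ := QuotientGroup.mk'_surjective (gm G k) yb
    rw [← map_commutatorElement]
    have h1 : φ y * y⁻¹ ∈ gm G k := hφ y
    have h2 : ⁅w, y⁆ = (φ y * (w * y * w⁻¹)⁻¹)⁻¹ * (φ y * y⁻¹) := by
      rw [commutatorElement_def]; group
    rw [h2, map_mul, map_inv]
    have h3 : QuotientGroup.mk' (gm G k) (φ y * y⁻¹) = 1 := by
      rw [← MonoidHom.mem_ker, QuotientGroup.ker_mk']; exact h1
    rw [h3, mul_one]
    exact inv_mem (hΓ (hw y)).1)
  obtain ⟨z, rfl⟩ := QuotientGroup.mk'_surjective (gm G k) zb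
  -- `z⁻¹ w = r0 c` with `c ∈ gm G k`
  have hc : (r0)⁻¹ * (z⁻¹ * w) ∈ gm G k := by
    rw [← QuotientGroup.ker_mk' (gm G k), MonoidHom.mem_ker, map_mul, map_inv, map_mul, map_inv,
      hr0e]
    group
  obtain ⟨c, hce⟩ : ∃ c, c = (r0)⁻¹ * (z⁻¹ * w) := ⟨_, rfl⟩
  rw [← hce] at hc
  obtain ⟨z1, hz1⟩ : ∃ z1, z1 = z * (r0 * c * r0⁻¹) := ⟨_, rfl⟩
  have hwe : w = z1 * r0 := by rw [hz1, hce]; group
  have hz1k : ∀ y, ⁅z1, y⁆ ∈ gm G k := by
    intro y
    rw [← QuotientGroup.ker_mk' (gm G k), MonoidHom.mem_ker, map_commutatorElement,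
      commutatorElement_eq_one_iff_mul_comm]
    have h1 : QuotientGroup.mk' (gm G k) z1 = QuotientGroup.mk' (gm G k) z := by
      rw [hz1, map_mul]
      have : QuotientGroup.mk' (gm G k) (r0 * c * r0⁻¹) = 1 := by
        rw [← MonoidHom.mem_ker, QuotientGroup.ker_mk']
        exact hgn.conj_mem _ hc _
      rw [this, mul_one]
    rw [h1]
    exact (Subgroup.mem_center_iff.1 hzb _).symm
  -- replace `φ` by `conj z1⁻¹ φ`
  have hcH : ∀ h : G, MulAut.conj h ∈ H := by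
    intro h
    refine hJ _ ⟨h, fun y => ?_⟩
    rw [MulAut.conj_apply, mul_inv_cancel]
    exact one_mem _
  have hz1I : MulAut.conj z1 ∈ IAk G k := fun y => by
    rw [MulAut.conj_apply]
    exact hz1k y
  have hφ' : (MulAut.conj z1)⁻¹ * φ ∈ IAk G k := mul_mem (inv_mem hz1I) hφ
  suffices hmain : (MulAut.conj z1)⁻¹ * φ ∈ H by
    have := mul_mem (hcH z1) hmain
    rwa [mul_inv_cancel_left] at this
  have hval : ∀ y, ((MulAut.conj z1)⁻¹ * φ) y * y⁻¹ ∈ R := by
    intro y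
    have h1 : φ y * (w * y * w⁻¹)⁻¹ ∈ R := (hΓ (hw y)).2
    have h2 : ((MulAut.conj z1)⁻¹ * φ) y = z1⁻¹ * φ y * z1 := by
      rw [MulAut.mul_apply, ← map_inv, MulAut.conj_apply, inv_inv]
    rw [h2]
    have e : z1⁻¹ * φ y * z1 * y⁻¹ =
        (z1⁻¹ * (φ y * (w * y * w⁻¹)⁻¹) * z1⁻¹⁻¹) * (r0 * (y * r0⁻¹ * y⁻¹)) := by
      rw [hwe]; group
    rw [e]
    exact mul_mem (hRn.conj_mem _ h1 _) (mul_mem hr0 (hRn.conj_mem _ (inv_mem hr0) _))
  have hb : ∀ i, ∃ b : C, δ ⟨_, hφ'⟩ i = b ^ m' := by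
    intro i
    have h1 : π (((MulAut.conj z1)⁻¹ * φ) (x i) * (x i)⁻¹) ∈ R0 := hRR (hval (x i))
    obtain ⟨b, hb, hbe⟩ := hrf _ ⟨_, hφ' (x i), rfl⟩ h1
    exact ⟨⟨b, hb⟩, Subtype.ext hbe⟩
  choose b hb using hb
  have hb' : δ ⟨_, hφ'⟩ = b ^ m' := funext hb
  obtain ⟨d', ⟨ψ, hψ⟩, hd'⟩ := har b (hb' ▸ ⟨_, rfl⟩)
  have h1 : δ (⟨_, hφ'⟩ * (ψ ^ m)⁻¹) = 1 := by
    rw [map_mul, map_inv, map_pow, hψ, ← hd', hb', mul_inv_cancel]
  have h2 := hδ _ h1
  have h3 : ((ψ ^ m : IAk G k) : MulAut G) ∈ H := by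
    rw [Subgroup.coe_pow]; exact hpow _
  have h4 := mul_mem h2 h3
  simpa using h4

/-- Congruence subgroups and the lower central series: if all subgroups of finite index which
contain the automorphisms acting as inner automorphisms on `G/[G, G]` are congruence subgroups, then
so are all subgroups of finite index which contain the automorphisms acting as inner automorphisms
on a quotient by a term of the lower central series. -/
theorem transfer [hG : Group.FG G] (h0 : ∀ H : Subgroup (MulAut G), H.FiniteIndex →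
      (∀ φ, InnM (gm G 1) φ → φ ∈ H) → CongS H) (k : ℕ) :
    ∀ H : Subgroup (MulAut G), H.FiniteIndex → (∀ φ, InnM (gm G (k + 1)) φ → φ ∈ H) →
      CongS H := by
  induction k with
  | zero => exact h0
  | succ k ih =>
    intro H hH hJ
    obtain ⟨Γ1, hc1, hf1, h1⟩ := crux (k + 1) (by omega) H hJ
    -- the automorphisms acting as inner ones on `G / gm G (k + 1)`
    have h1' : ∀ φ, InnM (gm G (k + 1)) φ → InnM Γ1 φ → φ ∈ H := by
      intro φ hφ hφ1
      obtain ⟨h, hh⟩ := hφ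
      have hcH : MulAut.conj h ∈ H := by
        refine hJ _ ⟨h, fun y => ?_⟩
        rw [MulAut.conj_apply, mul_inv_cancel]
        exact one_mem _
      have h2 : (MulAut.conj h)⁻¹ * φ ∈ IAk G (k + 1) := by
        intro y
        have e : ((MulAut.conj h)⁻¹ * φ) y * y⁻¹ =
            h⁻¹ * (φ y * (h * y * h⁻¹)⁻¹) * h⁻¹⁻¹ := by
          rw [MulAut.mul_apply, ← map_inv, MulAut.conj_apply]; group
        rw [e]
        exact (inferInstance : (gm G (k + 1)).Normal).conj_mem _ (hh y) _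
      have h3 : InnM Γ1 ((MulAut.conj h)⁻¹ * φ) :=
        mem_JJ.1 (mul_mem (inv_mem (conj_JJ Γ1 h)) (mem_JJ.2 hφ1))
      have h4 := mul_mem hcH (h1 _ h2 h3)
      rwa [mul_inv_cancel_left] at h4
    have hfJ := JJ_fi Γ1
    obtain ⟨Γ2, hc2, hf2, h2⟩ := ih ((H ⊓ JJ Γ1) ⊔ JJ (gm G (k + 1)))
      (Subgroup.finiteIndex_of_le (H := H ⊓ JJ Γ1) le_sup_left)
      (fun φ hφ => Subgroup.mem_sup_right (mem_JJ.2 hφ))
    refine ⟨Γ1 ⊓ Γ2, ?_, inferInstance, fun φ hφ => ?_⟩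
    · rw [Subgroup.characteristic_iff_le_comap]
      intro ψ y hy
      exact ⟨Subgroup.characteristic_iff_le_comap.1 hc1 ψ hy.1,
        Subgroup.characteristic_iff_le_comap.1 hc2 ψ hy.2⟩
    · have hφ1 : InnM Γ1 φ := by
        obtain ⟨h, hh⟩ := hφ; exact ⟨h, fun y => (hh y).1⟩
      have hφ2 : InnM Γ2 φ := by
        obtain ⟨h, hh⟩ := hφ; exact ⟨h, fun y => (hh y).2⟩
      have h3 := h2 φ hφ2
      rw [← SetLike.mem_coe, Subgroup.mul_normal] at h3
      obtain ⟨α, hα, κ, hκ, rfl⟩ := h3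
      refine mul_mem hα.1 (h1' κ (mem_JJ.1 hκ) ?_)
      have h4 : κ = α⁻¹ * (α * κ) := by group
      rw [h4]
      exact mem_JJ.1 (mul_mem (inv_mem hα.2) (mem_JJ.2 hφ1))

end Pool.Agent.Q290.SC
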