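import Mathlib
import Pool.Agent.Q290.MG.Cgr
import Pool.Agent.Q290.SC.Stm
import Pool.Agent.Q290.SC.NilC

set_option autoImplicit false

/-! The action of the automorphisms of the surface group on the homology. -/

namespace Pool.Agent.Q290.SC

open Pool.Agent.H798R3.MG Pool.Agent.H29R2.MG Pool.Agent.TH35.MG Pool.Agent.Q290.MG

variable {g : ℕ}

/-- the automorphism `φ` acts on the homology as `M` -/
def Act (φ : MulAut (SurfaceGroup g)) (M : SpG g) : Prop :=
  ∀ x, homologyClass (φ x) = ac M (homologyClass x)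

theorem Act.mul {φ ψ : MulAut (SurfaceGroup g)} {M N : SpG g} (h : Act φ M) (h' : Act ψ N) :
    Act (φ * ψ) (M * N) := fun x => by
  rw [MulAut.mul_apply, h, h', ac_mul]

theorem Act.inv {φ : MulAut (SurfaceGroup g)} {M : SpG g} (h : Act φ M) : Act φ⁻¹ M⁻¹ := fun x => by
  have h1 := h (φ⁻¹ x)
  rw [MulAut.apply_inv_self] at h1
  rw [h1, ac_self_inv]

theorem act_one : Act (1 : MulAut (SurfaceGroup g)) 1 := fun _ => rfl

/-- the elements of the symplectic group realized by automorphisms in `H` -/
def Rl (H : Subgroup (MulAut (SurfaceGroup g))) : Subgroup (SpG g) where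
  carrier := {M | ∃ φ ∈ H, Act φ M}
  one_mem' := ⟨1, one_mem _, act_one⟩
  mul_mem' := by
    rintro M N ⟨φ, hφ, h⟩ ⟨ψ, hψ, h'⟩
    exact ⟨φ * ψ, mul_mem hφ hψ, h.mul h'⟩
  inv_mem' := by
    rintro M ⟨φ, hφ, h⟩
    exact ⟨φ⁻¹, inv_mem hφ, h.inv⟩

theorem act_of_gen (φ : MulAut (SurfaceGroup g)) (M : SpG g)
    (h : ∀ j, homologyClass (φ (gen j)) = ac M (Pi.single j 1)) : Act φ M := by
  have h1 : (homologyHom g).comp (φ : SurfaceGroup g →* SurfaceGroup g) =
      (AddMonoidHom.toMultiplicative
        (((M : VV g ≃ₗ[ℤ] VV g) : VV g →ₗ[ℤ] VV g).toAddMonoidHom)).comp (homologyHom g) := by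
    apply surface_ext
    intro j
    apply Multiplicative.toAdd.injective
    have h2 := h j
    have h3 : homologyClass (gen j : SurfaceGroup g) = Pi.single j 1 := by
      funext i; rw [hc_gen]
    rw [← h3] at h2
    exact h2
  intro x
  exact congrArg Multiplicative.toAdd (DFunLike.congr_fun h1 x)

theorem single_inl (i : Fin g) : (Pi.single (Sum.inl i) 1 : VV g) = ve i := rfl
theorem single_inr (i : Fin g) : (Pi.single (Sum.inr i) 1 : VV g) = vf i := rfl

theorem hcl_gen (j : Fin g ⊕ Fin g) : homologyClass (gen j : SurfaceGroup g) = Pi.single j 1 := by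
  funext i; rw [hc_gen]

theorem hcl_mul (x y : SurfaceGroup g) :
    homologyClass (x * y) = homologyClass x + homologyClass y := hc_mul x y

theorem hcl_inv (x : SurfaceGroup g) : homologyClass x⁻¹ = - homologyClass x := hc_inv x

theorem om_ve_ve (i j : Fin g) : om (ve i) (ve j : VV g) = 0 := by
  rw [om_ve]; simp [ve]
theorem om_vf_vf (i j : Fin g) : om (vf i) (vf j : VV g) = 0 := by
  rw [om_vf]; simp [vf]
theorem om_ve_vf (i j : Fin g) : om (ve i) (vf j : VV g) = if i = j then 1 else 0 := by
  rw [om_ve]; simp [vf, Pi.single_apply]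
theorem om_vf_ve (i j : Fin g) : om (vf i) (ve j : VV g) = if i = j then -1 else 0 := by
  rw [om_vf]; simp only [ve, Pi.single_apply, Sum.inl.injEq]; split_ifs <;> simp

theorem hum_real (h2 : 2 ≤ g) {X : SpG g} (hX : X ∈ HumS g) :
    X ∈ Rl (⊤ : Subgroup (MulAut (SurfaceGroup g))) := by
  rcases hX with ⟨k, rfl⟩ | ⟨k, rfl⟩ | ⟨k, k', hk, rfl⟩
  · refine ⟨((TQ.qh g (sA g k) : orientedAut g) : MulAut (SurfaceGroup g)), Subgroup.mem_top _, ?_⟩
    apply act_of_gen
    intro j
    have h1 := vA h2 k.2 j
    change ((TQ.qh g (sA g k) : orientedAut g) : MulAut (SurfaceGroup g)) (gen j) = _ at h1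
    rw [h1]
    rcases j with i | i
    · rw [single_inl, ac_T, om_ve_ve, mul_zero, zero_smul, add_zero]
      show homologyClass (gen (Sum.inl i)) = _
      rw [hcl_gen]; rfl
    · rw [single_inr, ac_T, om_ve_vf]
      show homologyClass (if (i : ℕ) = k then gen (Sum.inr i) * gen (Sum.inl i)
        else gen (Sum.inr i)) = _
      by_cases h : (i : ℕ) = k
      · have h' : i = k := Fin.ext h
        subst h'
        rw [if_pos rfl, if_pos rfl, hcl_mul, hcl_gen, hcl_gen, mul_one, one_smul]; rfl
      · have h' : ¬ k = i := fun e => h (by rw [e])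
        rw [if_neg h, if_neg h', hcl_gen, mul_zero, zero_smul, add_zero]; rfl
  · refine ⟨((TQ.qh g (sB g k) : orientedAut g) : MulAut (SurfaceGroup g)), Subgroup.mem_top _, ?_⟩
    apply act_of_gen
    intro j
    have h1 := vB h2 k.2 j
    change ((TQ.qh g (sB g k) : orientedAut g) : MulAut (SurfaceGroup g)) (gen j) = _ at h1
    rw [h1]
    rcases j with i | i
    · rw [single_inl, ac_T, om_vf_ve]
      show homologyClass (if (i : ℕ) = k then gen (Sum.inl i) * (gen (Sum.inr i))⁻¹
        else gen (Sum.inl i)) = _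
      by_cases h : (i : ℕ) = k
      · have h' : i = k := Fin.ext h
        subst h'
        rw [if_pos rfl, if_pos rfl, hcl_mul, hcl_inv, hcl_gen, hcl_gen, one_mul, neg_one_smul]; rfl
      · have h' : ¬ k = i := fun e => h (by rw [e])
        rw [if_neg h, if_neg h', hcl_gen, mul_zero, zero_smul, add_zero]; rfl
    · rw [single_inr, ac_T, om_vf_vf, mul_zero, zero_smul, add_zero]
      show homologyClass (gen (Sum.inr i)) = _
      rw [hcl_gen]; rfl
  · have hk2 : (k : ℕ) + 1 < g := by rw [← hk]; exact k'.2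
    have hk' : k' = ⟨k + 1, hk2⟩ := Fin.ext hk
    refine ⟨((TQ.qh g (sT g k (k + 1)) : orientedAut g) : MulAut (SurfaceGroup g)),
      Subgroup.mem_top _, ?_⟩
    apply act_of_gen
    intro j
    have h1 := vT h2 hk2 j
    change ((TQ.qh g (sT g k (k + 1)) : orientedAut g) : MulAut (SurfaceGroup g)) (gen j) = _ at h1
    rw [h1]
    have hcom : homologyClass (comK g k k.2) = 0 := by
      unfold comK
      simp only [hcl_mul, hcl_inv]
      abel
    have hU : homologyClass (loopU g k hk2) = ve k + ve k' := by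
      unfold loopU
      simp only [hcl_mul, hcl_inv, hcom, hcl_gen, hk', single_inl]
      abel
    have hP : homologyClass (loopP g k hk2) = ve k + ve k' := by
      unfold loopP
      simp only [hcl_mul, hcl_inv, hcom, hcl_gen, hk', single_inl]
      abel
    rcases j with i | i
    · rw [single_inl, ac_T, om_add_left, om_ve_ve, om_ve_ve, add_zero, mul_zero, zero_smul,
        add_zero]
      show homologyClass (if (i : ℕ) = k then (loopU g k hk2)⁻¹ * gen (Sum.inl i) * loopU g k hk2
        else if (i : ℕ) = k + 1 then (loopP g k hk2)⁻¹ * gen (Sum.inl i) * loopP g k hk2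
          else gen (Sum.inl i)) = _
      split_ifs
      · simp only [hcl_mul, hcl_inv, hcl_gen, single_inl]; abel
      · simp only [hcl_mul, hcl_inv, hcl_gen, single_inl]; abel
      · rw [hcl_gen]; rfl
    · rw [single_inr, ac_T, om_add_left, om_ve_vf, om_ve_vf, one_mul]
      show homologyClass (if (i : ℕ) = k then gen (Sum.inr i) * loopU g k hk2
        else if (i : ℕ) = k + 1 then gen (Sum.inr i) * loopP g k hk2
          else gen (Sum.inr i)) = _
      by_cases h : (i : ℕ) = k
      · have h' : k = i := Fin.ext h.symm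
        have h'' : ¬ k' = i := fun e => by
          have := congrArg Fin.val e; omega
        rw [if_pos h, if_pos h', if_neg h'', hcl_mul, hcl_gen, hU, add_zero, one_smul]; rfl
      · have h' : ¬ k = i := fun e => h (by rw [e])
        rw [if_neg h, if_neg h']
        by_cases h3 : (i : ℕ) = k + 1
        · have h3' : k' = i := Fin.ext (by omega)
          rw [if_pos h3, if_pos h3', hcl_mul, hcl_gen, hP, zero_add, one_smul]; rfl
        · have h3' : ¬ k' = i := fun e => by
            have := congrArg Fin.val e; omega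
          rw [if_neg h3, if_neg h3', hcl_gen, zero_add, zero_smul, add_zero]; rfl

/-- every element of the symplectic group is realized by an automorphism -/
theorem surj (hgen : S_GEN) (h2 : 2 ≤ g) (M : SpG g) :
    ∃ φ : MulAut (SurfaceGroup g), Act φ M := by
  have h1 : Subgroup.closure (HumS g) ≤ Rl (⊤ : Subgroup (MulAut (SurfaceGroup g))) := by
    rw [Subgroup.closure_le]
    intro X hX
    exact hum_real h2 hX
  obtain ⟨φ, -, h⟩ := h1 (hgen g M)
  exact ⟨φ, h⟩

theorem Rl_fi (hgen : S_GEN) (h2 : 2 ≤ g) (H : Subgroup (MulAut (SurfaceGroup g)))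
    [hH : H.FiniteIndex] : (Rl H).FiniteIndex := by
  classical
  choose φ hφ using surj hgen h2
  have : Finite (MulAut (SurfaceGroup g) ⧸ H) := Subgroup.finite_quotient_of_finiteIndex
  have : Finite (SpG g ⧸ Rl H) := by
    refine Finite.of_injective
      (fun c : SpG g ⧸ Rl H => (φ c.out : MulAut (SurfaceGroup g) ⧸ H)) ?_
    intro c c' h
    have h1 : (φ c.out)⁻¹ * φ c'.out ∈ H := QuotientGroup.eq.1 h
    have h2 : (c.out)⁻¹ * c'.out ∈ Rl H := ⟨_, h1, (hφ _).inv.mul (hφ _)⟩
    have h3 := QuotientGroup.eq.2 h2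
    rwa [QuotientGroup.out_eq', QuotientGroup.out_eq'] at h3
  exact Subgroup.finiteIndex_of_finite_quotient

/-- the kernel of the map to the homology is the commutator subgroup -/
theorem mem_comm_of_hc (x : SurfaceGroup g) (h : homologyClass x = 0) :
    x ∈ gm (SurfaceGroup g) 1 := by
  classical
  let F : SurfaceGroup g →* Abelianization (SurfaceGroup g) :=
    { toFun := fun x => ∏ j, (Abelianization.of (gen j : SurfaceGroup g)) ^ (homologyClass x j)
      map_one' := by
        apply Finset.prod_eq_one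
        intro j _
        rw [hc_one]; simp
      map_mul' := fun x y => by
        rw [← Finset.prod_mul_distrib]
        apply Finset.prod_congr rfl
        intro j _
        rw [hc_mul, Pi.add_apply, zpow_add] }
  have hF : F = Abelianization.of := by
    apply surface_ext
    intro j
    show ∏ k, (Abelianization.of (gen k : SurfaceGroup g)) ^ (homologyClass (gen j) k) = _
    rw [Finset.prod_eq_single j]
    · rw [hc_gen, Pi.single_eq_same, zpow_one]
    · intro k _ hk
      rw [hc_gen, Pi.single_eq_of_ne hk, zpow_zero]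
    · intro h; exact absurd (Finset.mem_univ _) h
  have h1 : Abelianization.of x = 1 := by
    rw [← hF]
    show ∏ k, (Abelianization.of (gen k : SurfaceGroup g)) ^ (homologyClass x k) = 1
    apply Finset.prod_eq_one
    intro k _
    rw [h]; simp
  have h2 : x ∈ (Abelianization.of (G := SurfaceGroup g)).ker := h1
  rw [Abelianization.ker_of] at h2
  rw [gm, Subgroup.top_lowerCentralSeries_one]
  exact h2

/-- every vector is a homology class -/
theorem hc_surj (y : VV g) : ∃ x : SurfaceGroup g, homologyClass x = y := by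
  classical
  have h1 : ∀ s : Finset (Fin g ⊕ Fin g), ∃ x : SurfaceGroup g,
      homologyClass x = fun j => if j ∈ s then y j else 0 := by
    intro s
    induction s using Finset.induction_on with
    | empty => exact ⟨1, by rw [hc_one]; funext j; simp⟩
    | insert a s ha ih =>
      obtain ⟨x, hx⟩ := ih
      refine ⟨x * (gen a) ^ (y a), ?_⟩
      have h2 : ∀ n : ℤ, homologyClass ((gen a : SurfaceGroup g) ^ n) = n • Pi.single a 1 := by
        intro n
        have := map_zpow (homologyHom g) (gen a) n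
        have h3 := congrArg Multiplicative.toAdd this
        rw [toAdd_zpow] at h3
        rw [← hcl_gen]
        exact h3
      rw [hcl_mul, hx, h2]
      funext j
      simp only [Pi.add_apply, Pi.smul_apply, smul_eq_mul, Finset.mem_insert, Pi.single_apply]
      by_cases h : j = a
      · subst h; simp [ha]
      · simp [h]
  obtain ⟨x, hx⟩ := h1 Finset.univ
  exact ⟨x, by rw [hx]; funext j; simp⟩

/-- an automorphism preserving the form acts as an element of the symplectic group -/
theorem exists_act (φ : MulAut (SurfaceGroup g))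
    (hφ : ∀ x y, intersectionForm (homologyClass (φ x)) (homologyClass (φ y)) =
      intersectionForm (homologyClass x) (homologyClass y)) : ∃ M : SpG g, Act φ M := by
  classical
  let F : MulAut (SurfaceGroup g) → VV g → VV g := fun ψ y =>
    fun i => ∑ j, homologyClass (ψ (gen j)) i * y j
  have hF : ∀ (ψ : MulAut (SurfaceGroup g)) x, homologyClass (ψ x) = F ψ (homologyClass x) := by
    intro ψ x
    funext i
    exact hc_end (ψ : SurfaceGroup g →* SurfaceGroup g) x i
  have hinv : ∀ ψ : MulAut (SurfaceGroup g), ∀ y, F ψ⁻¹ (F ψ y) = y := by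
    intro ψ y
    obtain ⟨x, rfl⟩ := hc_surj y
    rw [← hF, ← hF]
    congr 1
    exact MulAut.inv_apply_self _ _ _
  refine ⟨mkSp (F φ) (F φ⁻¹) ?_ ?_ (hinv φ) ?_ ?_, fun x => hF φ x⟩
  · intro x y
    funext i
    simp only [F, Pi.add_apply, mul_add, Finset.sum_add_distrib]
  · intro c x
    funext i
    simp only [F, Pi.smul_apply, smul_eq_mul, Finset.mul_sum]
    apply Finset.sum_congr rfl
    intro j _
    ring
  · have := hinv φ⁻¹
    rwa [inv_inv] at this
  · intro x y
    obtain ⟨x, rfl⟩ := hc_surj x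
    obtain ⟨y, rfl⟩ := hc_surj y
    rw [← hF, ← hF]
    exact hφ x y

/-- the base of the induction: subgroups containing the Torelli group -/
theorem base (hgen : S_GEN) (hcsp : S_CSP) (hform : S_FORM) (h3 : 3 ≤ g)
    (H : Subgroup (MulAut (SurfaceGroup g))) (hH : H.FiniteIndex)
    (hJ : ∀ φ, InnM (gm (SurfaceGroup g) 1) φ → φ ∈ H) : CongS H := by
  classical
  have hfi := Rl_fi hgen (by omega) H
  have hfin : Finite (SpG g ⧸ Rl H) := Subgroup.finite_quotient_of_finiteIndex
  obtain ⟨q, hq, hqq⟩ := hcsp g h3 (Equiv.Perm (SpG g ⧸ Rl H))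
    (MulAction.toPermHom (SpG g) (SpG g ⧸ Rl H))
  have hGa : ∀ M ∈ Ga g q, M ∈ Rl H := by
    intro M hM
    have h1 := congrArg (fun p => p ((1 : SpG g) : SpG g ⧸ Rl H)) (hqq M hM)
    simp only [MulAction.toPermHom_apply, MulAction.toPerm_apply, Equiv.Perm.one_apply] at h1
    have h4 : ((M * 1 : SpG g) : SpG g ⧸ Rl H) = ((1 : SpG g) : SpG g ⧸ Rl H) := h1
    rw [mul_one, eq_comm, QuotientGroup.eq] at h4
    simpa using h4
  obtain ⟨n, hn⟩ : ∃ n : ℕ, (n : ℤ) = 3 * q := ⟨(3 * q).toNat, Int.toNat_of_nonneg (by omega)⟩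
  have hn0 : n ≠ 0 := by rintro rfl; simp at hn; omega
  refine ⟨levP g n, levP_char n, levP_fi n hn0, fun φ hφ => ?_⟩
  obtain ⟨u, hu⟩ := hφ
  have hdiv : ∀ x i, 3 * q ∣ homologyClass (φ x) i - homologyClass x i := by
    intro x i
    have h1 := hu x i
    rw [hc_mul, hc_inv, hc_mul, hc_mul, hc_inv, hn] at h1
    have e : (homologyClass (φ x) + -(homologyClass u + homologyClass x + -homologyClass u)) i =
        homologyClass (φ x) i - homologyClass x i := by
      simp only [Pi.add_apply, Pi.neg_apply]; ring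
    rwa [e] at h1
  obtain ⟨s, hs, hsf⟩ := hform g φ
  have hs1 : s = 1 := by
    rcases hs with h | h
    · exact h
    exfalso
    have hi : Fin g := ⟨0, by omega⟩
    have h1 := hsf (gen (Sum.inl ⟨0, by omega⟩)) (gen (Sum.inr ⟨0, by omega⟩))
    rw [hcl_gen, hcl_gen] at h1
    have h2 : intersectionForm (Pi.single (Sum.inl ⟨0, by omega⟩) 1 : VV g)
        (Pi.single (Sum.inr ⟨0, by omega⟩) 1) = 1 := by
      have := om_ve_vf (g := g) ⟨0, by omega⟩ ⟨0, by omega⟩
      rw [if_pos rfl] at this
      exact this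
    rw [h2, h] at h1
    have key : ∀ x y x' y' : VV g, (∀ i, (3 : ℤ) ∣ x' i - x i) → (∀ i, (3 : ℤ) ∣ y' i - y i) →
        (3 : ℤ) ∣ intersectionForm x' y' - intersectionForm x y := by
      intro x y x' y' hx hy
      unfold intersectionForm
      rw [← Finset.sum_sub_distrib]
      apply Finset.dvd_sum
      intro i _
      have e : x' (Sum.inl i) * y' (Sum.inr i) - x' (Sum.inr i) * y' (Sum.inl i) -
          (x (Sum.inl i) * y (Sum.inr i) - x (Sum.inr i) * y (Sum.inl i)) =
          (x' (Sum.inl i) - x (Sum.inl i)) * y' (Sum.inr i) +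
          x (Sum.inl i) * (y' (Sum.inr i) - y (Sum.inr i)) -
          (x' (Sum.inr i) - x (Sum.inr i)) * y' (Sum.inl i) -
          x (Sum.inr i) * (y' (Sum.inl i) - y (Sum.inl i)) := by ring
      rw [e]
      exact dvd_sub (dvd_sub (dvd_add (Dvd.dvd.mul_right (hx _) _) (Dvd.dvd.mul_left (hy _) _))
        (Dvd.dvd.mul_right (hx _) _)) (Dvd.dvd.mul_left (hy _) _)
    have h3' := key (homologyClass (gen (Sum.inl ⟨0, by omega⟩ : Fin g ⊕ Fin g)))
      (homologyClass (gen (Sum.inr ⟨0, by omega⟩ : Fin g ⊕ Fin g)))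
      (homologyClass (φ (gen (Sum.inl ⟨0, by omega⟩)))) (homologyClass (φ (gen (Sum.inr ⟨0, by omega⟩))))
      (fun i => (Dvd.intro q rfl).trans (hdiv _ i)) (fun i => (Dvd.intro q rfl).trans (hdiv _ i))
    rw [h1, hcl_gen, hcl_gen, h2] at h3'
    norm_num at h3'
  obtain ⟨M, hM⟩ := exists_act φ (fun x y => by rw [hsf, hs1, one_mul])
  have hMG : M ∈ Ga g q := by
    intro y i
    obtain ⟨x, rfl⟩ := hc_surj y
    rw [← hM x]
    exact (Dvd.intro_left 3 rfl).trans (hdiv x i)
  obtain ⟨ψ, hψ, hψM⟩ := hGa M hMG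
  have h5 : φ * ψ⁻¹ ∈ H := by
    refine hJ _ ⟨1, fun x => ?_⟩
    apply mem_comm_of_hc
    have h6 := (hM.mul hψM.inv) x
    rw [mul_inv_cancel, ac_one] at h6
    rw [hcl_mul, hcl_inv, h6]
    simp
  have h7 := mul_mem h5 hψ
  rwa [inv_mul_cancel_right] at h7

end Pool.Agent.Q290.SC
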