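import Mathlib
import Pool.Agent.Q290.SC.Real
import Pool.Agent.Q190.SC.NT
import Pool.Agent.Q190.SC.RZ
import Pool.Agent.Q68.SC.RA
import Pool.Agent.Q210.SC.RB
import Pool.Agent.Q210.SC.RC
import Pool.Agent.Q13.SC.FIXF
import Pool.Agent.Q217.SC.IND
import Pool.Agent.Q151.SC.BLK
import Pool.Agent.Q151.SC.GEN
import Pool.Agent.Q238.SC.Key
import Pool.Agent.Q247.SC.Sym
import Pool.Agent.Q158.SC.TR
import Pool.Agent.Q86.SC.HUM
import Pool.Agent.Q139.SC.FORM
import Pool.Agent.Q295.SC.NUM
import Pool.Agent.Q295.SC.CSP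

set_option autoImplicit false

/-! Assembly.  The lemmas of Stm.lean were proved by helper190, helper68, helper210, helper13,
helper217, helper151, helper238, helper247, helper158, helper86, helper139, helper295. -/

namespace Pool.Agent.Q290.SC

open Pool.Agent.H29R2.MG

theorem all_nt : S_NT := Pool.Agent.Q190.SC.nt
theorem all_ind : S_IND :=
  Pool.Agent.Q217.SC.ind all_nt (Pool.Agent.Q190.SC.rz all_nt) (Pool.Agent.Q68.SC.ra all_nt)
    Pool.Agent.Q210.SC.rb Pool.Agent.Q210.SC.rc Pool.Agent.Q13.SC.fixf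
theorem all_sym : S_SYM :=
  Pool.Agent.Q247.SC.sym (Pool.Agent.Q238.SC.cen all_ind Pool.Agent.Q151.SC.blk)
theorem all_key : S_KEY := Pool.Agent.Q238.SC.key Pool.Agent.Q13.SC.fixf Pool.Agent.Q151.SC.blk
/-- the congruence subgroup property of the symplectic group -/
theorem all_csp : S_CSP :=
  Pool.Agent.Q295.SC.csp all_ind Pool.Agent.Q151.SC.blk all_sym all_key Pool.Agent.Q295.SC.num
theorem all_gen : S_GEN :=
  Pool.Agent.Q151.SC.gen Pool.Agent.Q158.SC.tr Pool.Agent.Q86.SC.hum Pool.Agent.Q13.SC.fixf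

/-- subgroups containing a term of the Johnson filtration -/
theorem johnson {g : ℕ} (h3 : 3 ≤ g) (k : ℕ) (H : Subgroup (MulAut (SurfaceGroup g)))
    (hH : H.FiniteIndex) (hJ : ∀ φ, InnM (gm (SurfaceGroup g) k) φ → φ ∈ H) : CongS H := by
  have hfg : Group.FG (SurfaceGroup g) := by
    refine Group.fg_iff.2 ⟨Set.range (gen : Fin g ⊕ Fin g → SurfaceGroup g), ?_,
      Set.finite_range _⟩
    rw [eq_top_iff]
    intro x hx
    clear hx
    obtain ⟨z, rfl⟩ := mk_surjective g x
    induction z using FreeGroup.induction_on with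
    | C1 => rw [map_one]; exact one_mem _
    | of j => exact Subgroup.subset_closure ⟨j, rfl⟩
    | inv_of j h => rw [map_inv]; exact inv_mem h
    | mul x y hx hy => rw [map_mul]; exact mul_mem hx hy
  cases k with
  | zero =>
    refine ⟨⊤, inferInstance, inferInstance, fun φ _ => hJ φ ⟨1, fun x => ?_⟩⟩
    exact Subgroup.mem_top _
  | succ k =>
    exact transfer (fun H hH hJ => base all_gen all_csp Pool.Agent.Q139.SC.form h3 H hH hJ)
      k H hH hJ

/-- transport along an isomorphism -/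
theorem congS_iso {G G' : Type} [Group G] [Group G'] (e : G ≃* G') (H : Subgroup (MulAut G))
    (h : CongS (H.map (MulAut.congr e).toMonoidHom)) : CongS H := by
  obtain ⟨Γ, hc, hf, hΓ⟩ := h
  refine ⟨Γ.comap e.toMonoidHom, ?_, ?_, ?_⟩
  · rw [Subgroup.characteristic_iff_le_comap]
    intro ψ x hx
    have h1 := Subgroup.characteristic_iff_le_comap.1 hc (MulAut.congr e ψ)
    have h2 := h1 (show e x ∈ Γ from hx)
    show e (ψ x) ∈ Γ
    have h3 : (MulAut.congr e ψ) (e x) = e (ψ x) := by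
      show e (ψ (e.symm (e x))) = _
      rw [MulEquiv.symm_apply_apply]
    rw [← h3]
    exact h2
  · refine ⟨?_⟩
    rw [Subgroup.index_comap_of_surjective _ e.surjective]
    exact hf.index_ne_zero
  · rintro φ ⟨u, hu⟩
    have h1 : InnM Γ (MulAut.congr e φ) := by
      refine ⟨e u, fun x => ?_⟩
      have h2 : e (φ (e.symm x) * (u * e.symm x * u⁻¹)⁻¹) ∈ Γ := hu (e.symm x)
      have h3 : e (φ (e.symm x) * (u * e.symm x * u⁻¹)⁻¹) =
          (MulAut.congr e φ) x * (e u * x * (e u)⁻¹)⁻¹ := by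
        rw [map_mul, map_inv, map_mul, map_mul, map_inv, MulEquiv.apply_symm_apply]
        rfl
      rwa [h3] at h2
    obtain ⟨ψ, hψ, he⟩ := hΓ _ h1
    have h4 : ψ = φ := (MulAut.congr e).injective he
    rw [← h4]
    exact hψ

theorem johnson_iso {g : ℕ} (h3 : 3 ≤ g) {G : Type} [Group G] (e : G ≃* SurfaceGroup g) (k : ℕ)
    (H : Subgroup (MulAut G)) (hH : H.FiniteIndex)
    (hJ : ∀ φ, InnM (gm G k) φ → φ ∈ H) : CongS H := by
  apply congS_iso e
  apply johnson h3 k
  · refine ⟨fun h => ?_⟩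
    have h1 := Subgroup.index_map_dvd H (f := (MulAut.congr e).toMonoidHom)
      (MulAut.congr e).surjective
    rw [h] at h1
    exact hH.index_ne_zero (Nat.eq_zero_of_zero_dvd h1)
  · rintro φ ⟨u, hu⟩
    refine ⟨(MulAut.congr e).symm φ, hJ _ ⟨e.symm u, fun x => ?_⟩,
      (MulAut.congr e).apply_symm_apply φ⟩
    have h1 : (gm (SurfaceGroup g) k) = (gm G k).map e.toMonoidHom := by
      rw [gm, gm, Subgroup.map_lowerCentralSeries, Subgroup.map_top_of_surjective _ e.surjective]
    have h2 := hu (e x)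
    rw [h1] at h2
    obtain ⟨y, hy, hye⟩ := h2
    have h3 : y = ((MulAut.congr e).symm φ) x * (e.symm u * x * (e.symm u)⁻¹)⁻¹ := by
      apply e.injective
      rw [map_mul, map_inv, map_mul, map_mul, map_inv, MulEquiv.apply_symm_apply]
      have h4 : e (((MulAut.congr e).symm φ) x) = φ (e x) := by
        show e (e.symm (φ (e x))) = _
        rw [MulEquiv.apply_symm_apply]
      rw [h4]
      exact hye
    rw [← h3]
    exact hy

end Pool.Agent.Q290.SC
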