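import Mathlib
import Pool.Agent.Q290.SC.All

set_option autoImplicit false

/-! A finite-index subgroup is a congruence subgroup if its intersection with a term of the Johnson
filtration is relatively congruence. -/

namespace Pool.Agent.Q290.SC

open Pool.Agent.H29R2.MG
open scoped Pointwise

/-- a general principle: if every finite-index subgroup containing the normal subgroup `JJ P` is a
congruence subgroup, then so is every finite-index subgroup whose intersection with `JJ P` contains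
the intersection of `JJ P` with a congruence subgroup -/
theorem rel_of_all {G : Type} [Group G] (P : Subgroup G) [P.Characteristic]
    (hall : ∀ H : Subgroup (MulAut G), H.FiniteIndex → (∀ φ, InnM P φ → φ ∈ H) → CongS H)
    (H : Subgroup (MulAut G)) (hH : H.FiniteIndex)
    (Γ : Subgroup G) (hc : Γ.Characteristic) (hf : Γ.FiniteIndex)
    (hJ : ∀ φ, InnM P φ → InnM Γ φ → φ ∈ H) : CongS H := by
  have h1 : (JJ Γ).FiniteIndex := JJ_fi Γ
  have h2 : (H ⊓ JJ Γ).FiniteIndex := inferInstance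
  have h3 : ((H ⊓ JJ Γ) ⊔ JJ P).FiniteIndex :=
    Subgroup.finiteIndex_of_le (H := H ⊓ JJ Γ) le_sup_left
  obtain ⟨Δ, hΔc, hΔf, hΔ⟩ := hall ((H ⊓ JJ Γ) ⊔ JJ P) h3
    (fun φ hφ => (le_sup_right : JJ P ≤ (H ⊓ JJ Γ) ⊔ JJ P) (mem_JJ.2 hφ))
  refine ⟨Δ ⊓ Γ, ?_, inferInstance, ?_⟩
  · rw [Subgroup.characteristic_iff_le_comap]
    intro ψ x hx
    exact ⟨Subgroup.characteristic_iff_le_comap.1 hΔc ψ hx.1,
      Subgroup.characteristic_iff_le_comap.1 hc ψ hx.2⟩
  · rintro φ ⟨h, hh⟩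
    have hl : Δ ⊓ Γ ≤ Δ := inf_le_left
    have hr : Δ ⊓ Γ ≤ Γ := inf_le_right
    have i1 : InnM Δ φ := ⟨h, fun x => hl (hh x)⟩
    have i2 : InnM Γ φ := ⟨h, fun x => hr (hh x)⟩
    have h4 := hΔ φ i1
    have h5 : φ ∈ JJ Γ := mem_JJ.2 i2
    have h8 : φ ∈ ((H ⊓ JJ Γ : Subgroup (MulAut G)) : Set (MulAut G)) * (JJ P : Set (MulAut G)) := by
      rw [← Subgroup.mul_normal]
      exact h4
    obtain ⟨a, ha, b, hb, rfl⟩ := Set.mem_mul.1 h8
    have h6 : b ∈ JJ Γ := by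
      have h7 := (JJ Γ).mul_mem ((JJ Γ).inv_mem (Subgroup.mem_inf.1 ha).2) h5
      have h9 : a⁻¹ * (a * b) = b := inv_mul_cancel_left a b
      rw [← h9]
      exact h7
    exact H.mul_mem (Subgroup.mem_inf.1 ha).1 (hJ b (mem_JJ.1 hb) (mem_JJ.1 h6))

theorem johnson_rel {g : ℕ} (h3 : 3 ≤ g) {G : Type} [Group G] (e : G ≃* SurfaceGroup g) (k : ℕ)
    (H : Subgroup (MulAut G)) (hH : H.FiniteIndex) :
    CongS H ↔ ∃ Γ : Subgroup G, Γ.Characteristic ∧ Γ.FiniteIndex ∧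
      ∀ φ, InnM (gm G k) φ → InnM Γ φ → φ ∈ H := by
  constructor
  · rintro ⟨Γ, hc, hf, hΓ⟩
    exact ⟨Γ, hc, hf, fun φ _ h => hΓ φ h⟩
  · rintro ⟨Γ, hc, hf, hΓ⟩
    have : (gm G k).Characteristic := inferInstance
    exact rel_of_all (gm G k) (fun H hH hJ => johnson_iso h3 e k H hH hJ) H hH Γ hc hf hΓ

end Pool.Agent.Q290.SC
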